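import Pool.Agent.H44.EQ.Targets
import Pool.Agent.H19.BPG.UNI

/-!
MP_6ab439_lc, board eqi_modules, rows CFG and RLZ.
-/

set_option autoImplicit false

namespace Pool.Agent.H14.EQ

open Pool.Agent.H44.EQ Pool.Agent.H53.GC Pool.Agent.H53.NR Pool.Agent.H68.BP Pool.Agent.H58.SF

theorem pf_CFG : T_CFG := by
  intro σ V X _ 𝔸 M c N hs W R _ _ rk d hrk hsym hdiag hK
  let _ : LinearOrder W := LinearOrder.lift' rk hrk
  have hlt : ∀ x y : W, x < y ↔ rk x < rk y := fun x y => Iff.rfl
  obtain ⟨f, hf, hc⟩ := Pool.Agent.H19.BPG.pf_UNI V X c (fun _ _ => N) M hs.univ W d (by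
    intro m s _ hsm hfr
    obtain ⟨u, -, hu⟩ := hK (Set.range s) (by
      rintro _ ⟨i, rfl⟩ _ ⟨j, rfl⟩ hne
      rcases lt_trichotomy i j with h | h | h
      · exact hfr i j h
      · exact absurd (by rw [h]) hne
      · rw [hsym]
        exact hfr j i h)
    refine ⟨fun i => u (s i), fun i j hij => ?_⟩
    rcases hij.eq_or_lt with rfl | h
    · rw [hs.diag, hdiag]
    · exact hu _ ⟨i, rfl⟩ _ ⟨j, rfl⟩ (hsm h).ne)
  refine ⟨f, fun x y h => hf ((hlt x y).2 h), fun x y => ?_⟩
  rcases le_total x y with h | h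
  · exact hc x y h
  · rw [hs.sym, hsym]
    exact hc y x h

theorem three {V X P : Type} {M : ℕ} {c : V → V → X} {φ : P → P → Option X} (hM : 3 ≤ M)
    (h : ∀ p : Fin M → P, ∃ x : Fin M → V, ∀ a b, ceq c (x a) (x b) = φ (p a) (p b))
    (x y z : P) : ∃ u : Fin 3 → V, ∀ a b : Fin 3,
      ceq c (u a) (u b) = φ (![x, y, z] a) (![x, y, z] b) := by
  obtain ⟨v, hv⟩ := h fun a => if h : a.1 < 3 then ![x, y, z] ⟨a.1, h⟩ else z
  refine ⟨fun a => v (Fin.castLE hM a), fun a b => ?_⟩
  rw [hv]
  have e : ∀ a : Fin 3, (if h : (Fin.castLE hM a).1 < 3 then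
      ![x, y, z] ⟨(Fin.castLE hM a).1, h⟩ else z) = ![x, y, z] a := by
    intro a
    have : (Fin.castLE hM a).1 < 3 := a.2
    rw [dif_pos this]
    rfl
  rw [e, e]

theorem ceq_none {V X : Type} {c : V → V → X} {x y : V} : ceq c x y = none ↔ x = y := by
  unfold ceq
  by_cases h : x = y
  · simp [h]
  · simp [h]

theorem pf_RLZ : T_RLZ := by
  intro σ V X _ 𝔸 M c N hs P _ φ h
  have h3 := three hs.three h
  have hrefl : ∀ x, φ x x = none := by
    intro x
    obtain ⟨u, hu⟩ := h3 x x x
    have := hu 0 0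
    simp only [Matrix.cons_val_zero] at this
    rw [← this, ceq_none]
  have hsymc : ∀ a b : V, ceq c a b = ceq c b a := by
    intro a b
    unfold ceq
    by_cases hab : a = b
    · subst hab
      rfl
    · rw [if_neg hab, if_neg (Ne.symm hab), hs.sym]
  have hsym : ∀ x y, φ x y = φ y x := by
    intro x y
    obtain ⟨u, hu⟩ := h3 x y y
    have h1 := hu 0 1
    have h2 := hu 1 0
    simp only [Matrix.cons_val_zero, Matrix.cons_val_one] at h1 h2
    rw [← h1, ← h2, hsymc]
  have hcong : ∀ x y z, φ x y = none → φ x z = φ y z := by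
    intro x y z hxy
    obtain ⟨u, hu⟩ := h3 x y z
    have h1 := hu 0 1
    have h2 := hu 0 2
    have h4 := hu 1 2
    simp only [Matrix.cons_val_zero, Matrix.cons_val_one, Matrix.cons_val_two,
      Matrix.tail_cons, Matrix.head_cons] at h1 h2 h4
    rw [hxy, ceq_none] at h1
    rw [← h2, ← h4, h1]
  let S : Setoid P :=
    { r := fun x y => φ x y = none
      iseqv := ⟨hrefl, fun {x y} hxy => by rw [hsym]; exact hxy,
        fun {x y z} hxy hyz => by rw [hcong x y z hxy]; exact hyz⟩ }
  have hS : ∀ x y : P, (Quotient.mk S x = Quotient.mk S y) ↔ φ x y = none := fun x y =>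
    Quotient.eq (r := S)
  let d : Quotient S → Quotient S → X := Quotient.lift₂ (fun x y => (φ x y).getD N) (by
    intro a b a' b' h1 h2
    have e : φ a b = φ a' b' := by
      rw [hcong a a' b h1, hsym a' b, hcong b b' a' h2, hsym]
    show (φ a b).getD N = (φ a' b').getD N
    rw [e])
  have hd : ∀ x y : P, d (Quotient.mk S x) (Quotient.mk S y) = (φ x y).getD N := fun _ _ => rfl
  let _ : LinearOrder (Quotient S) := LinearOrder.lift' (Finite.equivFin (Quotient S))
    (Finite.equivFin (Quotient S)).injective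
  obtain ⟨f, hf, hc⟩ := Pool.Agent.H19.BPG.pf_UNI V X c (fun _ _ => N) M hs.univ (Quotient S) d (by
    intro m s hm hsm _
    rcases Nat.eq_zero_or_pos m with rfl | hm0
    · exact ⟨fun i => i.elim0, fun i => i.elim0⟩
    obtain ⟨x, hx⟩ := h fun a => if h : a.1 < m then (s ⟨a.1, h⟩).out else (s ⟨0, hm0⟩).out
    refine ⟨fun i => x (Fin.castLE hm i), fun i j hij => ?_⟩
    have e : ∀ i : Fin m, (if h : (Fin.castLE hm i).1 < m then
        (s ⟨(Fin.castLE hm i).1, h⟩).out else (s ⟨0, hm0⟩).out) = (s i).out := by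
      intro i
      have : (Fin.castLE hm i).1 < m := i.2
      rw [dif_pos this]
      rfl
    have h1 := hx (Fin.castLE hm i) (Fin.castLE hm j)
    rw [e, e] at h1
    have h2 : d (s i) (s j) = (φ (s i).out (s j).out).getD N := by
      rw [← hd, Quotient.out_eq, Quotient.out_eq]
    rcases hij.eq_or_lt with rfl | hlt
    · rw [hs.diag, h2, hrefl]
      rfl
    · have hne : ¬ x (Fin.castLE hm i) = x (Fin.castLE hm j) := by
        intro h4
        have h5 : φ (s i).out (s j).out = none := by
          rw [← h1, ceq_none]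
          exact h4
        have h6 := (hS _ _).2 h5
        rw [Quotient.out_eq, Quotient.out_eq] at h6
        exact (hsm hlt).ne h6
      rw [h2, ← h1]
      unfold ceq
      rw [if_neg hne]
      rfl)
  have hall : ∀ i j, c (f i) (f j) = d i j := by
    intro i j
    rcases le_total i j with hij | hij
    · exact hc i j hij
    · rw [hs.sym, hc j i hij]
      induction i using Quotient.ind with | _ i => ?_
      induction j using Quotient.ind with | _ j => ?_
      rw [hd, hd, hsym]
  refine ⟨fun p => f (Quotient.mk S p), fun p p' => ?_⟩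
  by_cases hp : φ p p' = none
  · rw [hp, ceq_none]
    exact congrArg f ((hS p p').2 hp)
  · have hne : ¬ f (Quotient.mk S p) = f (Quotient.mk S p') := fun h4 =>
      hp ((hS p p').1 (hf.injective h4))
    unfold ceq
    rw [if_neg hne, hall, hd]
    rcases ho : φ p p' with _ | x
    · exact absurd ho hp
    · rfl

end Pool.Agent.H14.EQ
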