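import Pool.Agent.H92.EQ.TT

/-!
# Board MP_75a732_an, row TZ
-/

set_option autoImplicit false

namespace Pool.Agent.H14.EQ

open scoped BigOperators ComplexConjugate ContDiff ComplexOrder
open MeasureTheory
open Pool.Agent.H92.EQ

theorem gs_nonneg {s : ℝ} (hs : 0 < s) (t : ℂ) : 0 ≤ gs s t :=
  mul_nonneg (inv_nonneg.2 (mul_pos Real.pi_pos hs).le) (Real.exp_pos _).le

theorem gs_cont (s : ℝ) : Continuous (gs s) := by
  unfold gs
  fun_prop

theorem gs_int {s : ℝ} (hs : 0 < s) : Integrable (gs s) ∧ ∫ t, gs s t = 1 := by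
  have h1 : ∀ t : ℂ, gs s t = (Real.pi * s)⁻¹ * Real.exp (-(s⁻¹) * ‖t‖ ^ 2) := fun t => by
    unfold gs
    congr 2
    field_simp
  have hs' : 0 < s⁻¹ := inv_pos.2 hs
  have h2 := GaussianFourier.integral_rexp_neg_mul_sq_norm (V := ℂ) hs'
  rw [Complex.finrank_real_complex] at h2
  have h3 : ∫ t : ℂ, Real.exp (-(s⁻¹) * ‖t‖ ^ 2) = Real.pi * s := by
    rw [h2]
    norm_num
  have h4 : Integrable fun t : ℂ => Real.exp (-(s⁻¹) * ‖t‖ ^ 2) := by
    by_contra hcon
    rw [integral_undef hcon] at h3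
    exact (mul_pos Real.pi_pos hs).ne h3
  have h5 : gs s = fun t : ℂ => (Real.pi * s)⁻¹ * Real.exp (-(s⁻¹) * ‖t‖ ^ 2) := funext h1
  rw [h5]
  refine ⟨h4.const_mul _, ?_⟩
  rw [integral_const_mul, h3, inv_mul_cancel₀ (mul_pos Real.pi_pos hs).ne']

/-- the identity matrix -/
def dl (N : ℕ) : Fin N → Fin N → ℂ := fun i j => if i = j then 1 else 0

theorem gs_scale {θ : ℝ} (hθ : 0 < θ) (x : ℂ) :
    gs (θ ^ 2) (θ • x) = (θ ^ 2)⁻¹ * (Real.pi⁻¹ * Real.exp (-‖x‖ ^ 2)) := by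
  unfold gs
  have h1 : ‖θ • x‖ ^ 2 / θ ^ 2 = ‖x‖ ^ 2 := by
    rw [norm_smul, Real.norm_eq_abs, mul_pow, sq_abs]
    field_simp
  rw [neg_div, h1, mul_inv]
  ring

theorem prod_scale {N : ℕ} {θ : ℝ} (hθ : 0 < θ) (X : Fin N → Fin N → ℂ) :
    ∏ i, ∏ j, gs (θ ^ 2) ((dl N + θ • X) i j - dl N i j) =
      (θ ^ (N * (N * 2)))⁻¹ * gss X := by
  have h1 : ∀ i j : Fin N, gs (θ ^ 2) ((dl N + θ • X) i j - dl N i j) =
      (θ ^ 2)⁻¹ * (Real.pi⁻¹ * Real.exp (-‖X i j‖ ^ 2)) := by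
    intro i j
    rw [← gs_scale hθ]
    congr 1
    simp
  simp only [h1, Finset.prod_mul_distrib, Finset.prod_const, Finset.card_univ, Fintype.card_fin]
  unfold gss
  simp only [Finset.prod_mul_distrib, Finset.prod_const, Finset.card_univ, Fintype.card_fin]
  congr 1
  rw [inv_pow, inv_pow, ← pow_mul, ← pow_mul]
  congr 2
  ring

theorem haar1 (N : ℕ) : (volume : Measure (Fin N → ℂ)).IsAddHaarMeasure := inferInstance

theorem haar2 (N : ℕ) : (volume : Measure (Fin N → Fin N → ℂ)).IsAddHaarMeasure := by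
  have _ := haar1 N
  exact Measure.pi.isAddHaarMeasure (fun _ : Fin N => (volume : Measure (Fin N → ℂ)))

/-- the substitution `Y = 1 + θ X` -/
theorem chg {N : ℕ} (b : (Fin N → Fin N → ℂ) → ℝ) {θ : ℝ} (hθ : 0 < θ)
    (hg : Integrable fun Y : Fin N → Fin N → ℂ =>
      b Y * ∏ i, ∏ j, gs (θ ^ 2) (Y i j - dl N i j)) :
    Integrable (fun X : Fin N → Fin N → ℂ => gss X * b (dl N + θ • X)) ∧
    ∫ X : Fin N → Fin N → ℂ, gss X * b (dl N + θ • X) =
      ∫ Y : Fin N → Fin N → ℂ, b Y * ∏ i, ∏ j, gs (θ ^ 2) (Y i j - dl N i j) := by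
  have _ := haar2 N
  set g : (Fin N → Fin N → ℂ) → ℝ := fun Y =>
    b Y * ∏ i, ∏ j, gs (θ ^ 2) (Y i j - dl N i j) with hgd
  have hpos : 0 < θ ^ (N * (N * 2)) := pow_pos hθ _
  have h3 : ∀ X : Fin N → Fin N → ℂ, gss X * b (dl N + θ • X) =
      θ ^ (N * (N * 2)) * g (dl N + θ • X) := by
    intro X
    have h4 : g (dl N + θ • X) = b (dl N + θ • X) * ((θ ^ (N * (N * 2)))⁻¹ * gss X) := by
      rw [← prod_scale hθ X]
    rw [h4]
    field_simp
  have h1 : Integrable fun X : Fin N → Fin N → ℂ => g (dl N + X) := hg.comp_add_left (dl N)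
  have h2 : Integrable fun X : Fin N → Fin N → ℂ => g (dl N + θ • X) :=
    h1.comp_smul (R := θ) hθ.ne'
  have h5 : (fun X : Fin N → Fin N → ℂ => gss X * b (dl N + θ • X)) =
      fun X => θ ^ (N * (N * 2)) * g (dl N + θ • X) := funext h3
  refine ⟨h5 ▸ h2.const_mul _, ?_⟩
  rw [h5, integral_const_mul]
  have h6 := Measure.integral_comp_smul (volume : Measure (Fin N → Fin N → ℂ))
    (fun X => g (dl N + X)) θ
  have h7 : Module.finrank ℝ (Fin N → Fin N → ℂ) = N * (N * 2) := by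
    simp [Module.finrank_pi_fintype, Complex.finrank_real_complex]
  rw [h6, h7, integral_add_left_eq_self g (dl N), smul_eq_mul, abs_of_pos (inv_pos.2 hpos)]
  field_simp

theorem mixD_zero {ι : Type} [Fintype ι] [DecidableEq ι] {p m : ℕ} (h : p + m ≠ Fintype.card ι)
    (S : (Fin p → ι) → (Fin p → ι) → ℂ) (H : Fin m → Matrix ι ι ℂ) : mixD S H = 0 := by
  have h1 : IsEmpty ((Fin p ⊕ Fin m) ≃ ι) := ⟨fun e => h (by
    have := Fintype.card_congr e
    simpa using this)⟩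
  unfold mixD
  simp

theorem pair_zero {N p q : ℕ} (h : p + q + 1 ≠ N) (φ : (Fin N → ℂ) → ℝ) (S : Form (Fin N) p)
    (u : Fin q → (Fin N → ℂ) → ℝ) : pair φ S u = 0 := by
  have h1 : ∀ z, Q S u z = 0 := fun z => by
    unfold Q
    rw [mixD_zero (by rw [Fintype.card_fin]; omega)]
    simp
  unfold pair Iint
  simp [h1]

theorem pf_TZ (hTG : T_TG) (hTH : T_TH) (hTI : T_TI) (hTJ : T_TJ) (hTK : T_TK) (hTL : T_TL)
    (hTM : T_TM) (hTN : T_TN) (hL1 : T_L1) (hL6 : T_L6) : T_TZ := by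
  intro N p q
  by_cases hN : p + q + 1 = N
  swap
  · refine ⟨1, one_pos, fun D Φ hD hΦ w w' u hw hw' hu S hS θ hθ hθ1 => ?_⟩
    have h1 : ∀ A, am (fun z => w z - w' z) Φ S u A = 0 := fun A => pair_zero hN _ _ _
    have h2 : mass q S = 0 := pair_zero hN _ _ _
    simp [h1, h2]
  obtain ⟨c0, hc0, hJ⟩ := hTJ
  obtain ⟨C, hC, hL⟩ := hTL
  have hN0 : 0 < (N : ℝ) := by
    have : 0 < N := by omega
    exact_mod_cast this
  refine ⟨N ^ 2 * (C * (c0 * ((q + 1) * N))), by positivity,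
    fun D Φ hD hΦ w w' u hw hw' hu S hS θ hθ hθ1 => ?_⟩
  have hhom : Hom0 (fun z => w z - w' z) := by
    have h1 := (hL1 N 1 1 1 (-1) w w').1 ((hL1 N 1 1 1 1 w w).2.2.1 hw)
      ((hL1 N 1 1 1 1 w' w').2.2.1 hw')
    have h2 : (fun z => (1 : ℝ) * w z + -1 * w' z) = fun z => w z - w' z := by
      funext z
      ring
    rw [h2] at h1
    refine (hL1 N 0 0 0 0 (fun z => w z - w' z) w').2.1.2 ?_
    have h3 : (1 : ℝ) * 1 + -1 * 1 = 0 := by norm_num
    rwa [h3] at h1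
  obtain ⟨B, hB, hBb⟩ := (hL6 N).1 (fun z => w z - w' z) hhom.smooth.continuousOn
    (fun r z hr hz => hhom.hom (r : ℂ) z (by exact_mod_cast hr.ne') hz)
  obtain ⟨hcont, hbd, -⟩ := hTN N p q D Φ S (fun z => w z - w' z) u B hN hD hΦ hS hhom hu hBb
  have hD0 : 0 < (D : ℝ) := by exact_mod_cast hD
  have hmass : 0 ≤ mass q S := by
    have h1 := (abs_nonneg _).trans (hbd 1 (by simp))
    have h2 : 0 < B * (D : ℝ) ^ p := by positivity
    rw [← mul_assoc] at h1
    exact nonneg_of_mul_nonneg_right h1 h2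
  have hlog : 0 ≤ 1 + Real.log (1 / θ) := by
    have h1 : 0 ≤ Real.log (1 / θ) := Real.log_nonneg (by rw [le_div_iff₀ hθ]; linarith)
    linarith
  set b : (Fin N → Fin N → ℂ) → ℝ :=
    fun X => am (fun z => w z - w' z) Φ S u (Matrix.of X) with hb
  set A : ℝ := (q + 1) * N * ((D : ℝ) ^ p / D) * mass q S with hA
  have hA0 : 0 ≤ A := by positivity
  set M : ℝ := c0 * A with hM
  have hM0 : 0 ≤ M := by positivity
  -- one entry moves
  have key : ∀ i j : Fin N, ∀ᵐ X : Fin N → Fin N → ℂ,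
      |∫ t, b (rep X i j t) * (gs (θ ^ 2) (t - dl N i j) - gs 1 t)| ≤
        C * (1 + Real.log (1 / θ)) * M := by
    intro i j
    filter_upwards [(hTH N i j).2] with X hX
    obtain ⟨t1, C1, ht1, -⟩ := hTG N X i j hX
    obtain ⟨m, m', F, F', C2, hm, hmc, hmc', hFc, hFc', hF, hF', hW, hW', hac, haW⟩ :=
      hTI N p q D Φ S w w' u X i j t1 hN hD hΦ hS hw hw' hu hX ht1
    have h1 := hJ t1 F m A (max C2 0) hA0 (le_max_right _ _) hFc hmc (fun t ht => (hm t ht).1)
      (fun t ht => (hF t ht).trans (add_le_add_right (le_max_left _ _) _)) hW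
    have h2 := hJ t1 F' m' A (max C2 0) hA0 (le_max_right _ _) hFc' hmc'
      (fun t ht => (hm t ht).2)
      (fun t ht => (hF' t ht).trans (add_le_add_right (le_max_left _ _) _)) hW'
    have hab : ∀ t, t ≠ t1 → |b (rep X i j t)| ≤ B * ((D : ℝ) ^ p * mass q S) := fun t ht =>
      hbd (Matrix.of (rep X i j t)) fun h0 => ht ((ht1 t).1 h0)
    refine hL t1 (dl N i j) (fun t => b (rep X i j t)) _ M θ hac hab hM0 ?_ hθ hθ1 ?_
    · unfold dl
      split_ifs <;> simp
    · intro ψ K K' hψ hK hK' i1 i2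
      exact hTK t1 (fun t => b (rep X i j t)) m m' ψ _ M K K' hac hab hm hmc hmc' h1.1 h2.1
        h1.2 h2.2 haW hψ hK hK' i1 i2
  have hij : ∃ i : Fin N, True := ⟨⟨0, by omega⟩, trivial⟩
  obtain ⟨i0, -⟩ := hij
  have hae := (hTH N i0 i0).1
  have hmeas : AEStronglyMeasurable b := by
    have hopen : IsOpen {X : Fin N → Fin N → ℂ | (Matrix.of X).det ≠ 0} := by
      have hc : Continuous fun X : Fin N → Fin N → ℂ => (Matrix.of X).det :=
        Continuous.matrix_det (by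
          refine continuous_pi fun i => continuous_pi fun j => ?_
          exact (continuous_apply j).comp (continuous_apply i))
      exact isOpen_ne_fun hc continuous_const
    have h1 := hcont.aestronglyMeasurable (μ := volume) hopen.measurableSet
    have h2 : (volume : Measure (Fin N → Fin N → ℂ)).restrict
        {X : Fin N → Fin N → ℂ | (Matrix.of X).det ≠ 0} = volume :=
      Measure.restrict_eq_self_of_ae_mem hae
    rwa [h2] at h1
  have h1s : (0 : ℝ) < θ ^ 2 := by positivity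
  have hTM' := hTM N b (fun i j t => gs (θ ^ 2) (t - dl N i j)) (fun _ _ t => gs 1 t)
    (B * ((D : ℝ) ^ p * mass q S)) (C * (1 + Real.log (1 / θ)) * M) (by positivity) hmeas
    (by filter_upwards [hae] with X hX using hbd _ hX)
    (fun i j => ⟨(gs_cont _).comp (continuous_id.sub continuous_const), gs_cont _,
      fun t => gs_nonneg h1s _, fun t => gs_nonneg one_pos _,
      (gs_int h1s).1.comp_sub_right _, (gs_int one_pos).1,
      by rw [integral_sub_right_eq_self (gs (θ ^ 2)) (dl N i j)]; exact (gs_int h1s).2,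
      (gs_int one_pos).2⟩) key
  obtain ⟨k1, k2, k3⟩ := hTM'
  have hgs : ∀ X : Fin N → Fin N → ℂ, ∏ i, ∏ j, gs 1 (X i j) = gss X := by
    intro X
    unfold gss gs
    simp
  obtain ⟨c1, c2⟩ := chg b hθ k1
  have hone : ∀ X : Fin N → Fin N → ℂ, (1 + (θ : ℂ) • Matrix.of X :
      Matrix (Fin N) (Fin N) ℂ) = Matrix.of (dl N + θ • X) := by
    intro X
    ext i j
    simp [dl, Matrix.one_apply]
  have hb1 : ∀ X : Fin N → Fin N → ℂ, am (fun z => w z - w' z) Φ S u
      (1 + (θ : ℂ) • Matrix.of X) = b (dl N + θ • X) := fun X => by rw [hone]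
  simp only [hb1]
  refine ⟨c1, ?_, ?_⟩
  · refine k2.congr (Filter.Eventually.of_forall fun X => ?_)
    simp only [hgs]
    exact mul_comm _ _
  · have h5 : ∫ X : Fin N → Fin N → ℂ, gss X * b X =
        ∫ X : Fin N → Fin N → ℂ, b X * ∏ i, ∏ j, gs 1 (X i j) := by
      refine integral_congr_ae (Filter.Eventually.of_forall fun X => ?_)
      simp only [hgs]
      exact mul_comm _ _
    rw [c2, h5]
    refine k3.trans (le_of_eq ?_)
    rw [hM, hA]
    ring

end Pool.Agent.H14.EQ
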