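import Pool.Agent.H92.EQ.TP
import Pool.Agent.H80.EQ.KI

/-!
# Board MP_75a732_an, row PZ
-/

set_option autoImplicit false

namespace Pool.Agent.H14.EQ

open scoped BigOperators ComplexConjugate ContDiff ComplexOrder
open MeasureTheory
open Pool.Agent.H92.EQ Pool.Agent.H80.EQ

theorem nrm_cont {N : ℕ} : Continuous (nrm : (Fin N → ℂ) → ℝ) := by
  unfold nrm nsq
  fun_prop

theorem nrm_pos {N : ℕ} {z : Fin N → ℂ} (hz : z ≠ 0) : 0 < nrm z := by
  obtain ⟨i, hi⟩ := Function.ne_iff.1 hz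
  exact Real.sqrt_pos.2 (Finset.sum_pos' (fun _ _ => sq_nonneg _)
    ⟨i, Finset.mem_univ i, pow_pos (norm_pos_iff.2 hi) 2⟩)

theorem nrm_smul {N : ℕ} (l : ℂ) (z : Fin N → ℂ) : nrm (l • z) = ‖l‖ * nrm z := by
  unfold nrm nsq
  have h1 : ∑ i, ‖(l • z) i‖ ^ 2 = ‖l‖ ^ 2 * ∑ i, ‖z i‖ ^ 2 := by
    rw [Finset.mul_sum]
    refine Finset.sum_congr rfl fun i _ => ?_
    rw [Pi.smul_apply, smul_eq_mul, norm_mul, mul_pow]
  rw [h1, Real.sqrt_mul (sq_nonneg _), Real.sqrt_sq (norm_nonneg _)]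

theorem nv_smul {N m : ℕ} {h : MvPolynomial (Fin N) ℂ} (hh : h.IsHomogeneous m) {l : ℂ}
    (hl : l ≠ 0) (z : Fin N → ℂ) : nv h m (l • z) = nv h m z := by
  unfold nv
  have h1 : MvPolynomial.eval (l • z) h = l ^ m * MvPolynomial.eval z h := by
    rw [MvPolynomial.eval_eq', MvPolynomial.eval_eq', Finset.mul_sum]
    refine Finset.sum_congr rfl fun a ha => ?_
    have h1 : a.degree = m := by
      by_contra hc
      exact (MvPolynomial.mem_support_iff.1 ha) (hh.coeff_eq_zero hc)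
    have h2 : ∏ i, ((l • z) i) ^ a i = l ^ m * ∏ i, z i ^ a i := by
      simp_rw [Pi.smul_apply, smul_eq_mul, mul_pow]
      rw [Finset.prod_mul_distrib, Finset.prod_pow_eq_pow_sum, ← h1, Finsupp.degree_eq_sum]
    rw [h2]
    ring
  have h2 : 0 < ‖l‖ ^ m := pow_pos (norm_pos_iff.2 hl) m
  rw [h1, nrm_smul, norm_mul, norm_pow, mul_pow, mul_div_mul_left _ _ h2.ne']

theorem phi_smul {N s : ℕ} {h : Fin s → MvPolynomial (Fin N) ℂ} {e : Fin s → ℕ}
    (hh : ∀ i, (h i).IsHomogeneous (e i)) {l : ℂ} (hl : l ≠ 0) (z : Fin N → ℂ) :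
    phi h e (l • z) = phi h e z :=
  Finset.sum_congr rfl fun i _ => nv_smul (hh i) hl z

theorem phi_cont {N s : ℕ} (h : Fin s → MvPolynomial (Fin N) ℂ) (e : Fin s → ℕ) :
    ContinuousOn (phi h e) {0}ᶜ := by
  unfold phi nv
  refine continuousOn_finsetSum _ fun j _ => ?_
  exact (MvPolynomial.continuous_eval _).norm.continuousOn.div
    (nrm_cont.pow _).continuousOn fun z hz => pow_ne_zero _ (nrm_pos hz).ne'

/-- a lower bound on a closed cone -/
theorem phi_low {N s : ℕ} {h : Fin s → MvPolynomial (Fin N) ℂ} {e : Fin s → ℕ}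
    (hh : ∀ i, (h i).IsHomogeneous (e i)) {K : Set (Fin N → ℂ)} (hK : IsClosed (K ∪ {0}))
    (hc : ∀ z ∈ K, ∀ l : ℂ, l ≠ 0 → l • z ∈ K)
    (hz : ∀ z ∈ K, z ≠ 0 → ¬ ∀ i, MvPolynomial.eval z (h i) = 0) :
    ∃ s0 : ℝ, 0 < s0 ∧ ∀ z ∈ K, z ≠ 0 → s0 ≤ phi h e z := by
  have hS : IsCompact {z : Fin N → ℂ | z ∈ K ∪ {0} ∧ nrm z = 1} := by
    refine Metric.isCompact_of_isClosed_isBounded
      (hK.inter (isClosed_eq nrm_cont continuous_const)) ?_
    refine (Metric.isBounded_closedBall (x := (0 : Fin N → ℂ)) (r := 1)).subset ?_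
    intro z hz
    rw [mem_closedBall_zero_iff, pi_norm_le_iff_of_nonneg zero_le_one]
    intro i
    have h1 : ‖z i‖ ^ 2 ≤ nsq z :=
      Finset.single_le_sum (f := fun i => ‖z i‖ ^ 2) (fun i _ => sq_nonneg _)
        (Finset.mem_univ i)
    have h2 : nsq z = 1 := by
      have h3 : Real.sqrt (nsq z) = 1 := hz.2
      rwa [Real.sqrt_eq_one] at h3
    rw [h2] at h1
    exact (sq_le_one_iff₀ (norm_nonneg _)).1 h1
  have h0 : ∀ z ∈ {z : Fin N → ℂ | z ∈ K ∪ {0} ∧ nrm z = 1}, z ≠ 0 := by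
    rintro z ⟨-, h1⟩ rfl
    have h2 : nrm (0 : Fin N → ℂ) = 0 := by simp [nrm, nsq]
    rw [h2] at h1
    exact zero_ne_one h1
  have hpos : ∀ z ∈ {z : Fin N → ℂ | z ∈ K ∪ {0} ∧ nrm z = 1}, 0 < phi h e z := by
    intro z hzS
    have hzK : z ∈ K := by
      rcases hzS.1 with h1 | h1
      · exact h1
      · exact absurd h1 (h0 z hzS)
    have h2 := hz z hzK (h0 z hzS)
    push Not at h2
    obtain ⟨i, hi⟩ := h2
    refine Finset.sum_pos' (fun j _ => div_nonneg (norm_nonneg _)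
      (pow_nonneg (Real.sqrt_nonneg _) _)) ⟨i, Finset.mem_univ i, ?_⟩
    exact div_pos (norm_pos_iff.2 hi) (pow_pos (nrm_pos (h0 z hzS)) _)
  obtain ⟨s0, hs0, hb⟩ : ∃ s0 : ℝ, 0 < s0 ∧
      ∀ z ∈ {z : Fin N → ℂ | z ∈ K ∪ {0} ∧ nrm z = 1}, s0 ≤ phi h e z := by
    rcases Set.eq_empty_or_nonempty {z : Fin N → ℂ | z ∈ K ∪ {0} ∧ nrm z = 1} with he | hne
    · exact ⟨1, one_pos, fun z hz => by rw [he] at hz; exact absurd hz (Set.notMem_empty z)⟩
    · obtain ⟨z0, hz0, hmin⟩ := hS.exists_isMinOn hne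
        ((phi_cont h e).mono fun z hz => h0 z hz)
      exact ⟨phi h e z0, hpos z0 hz0, fun z hz => hmin hz⟩
  refine ⟨s0, hs0, fun z hzK hz0 => ?_⟩
  have h1 : ((nrm z)⁻¹ : ℂ) ≠ 0 := by
    rw [ne_eq, inv_eq_zero]
    exact_mod_cast (nrm_pos hz0).ne'
  have h2 := hb (((nrm z)⁻¹ : ℂ) • z) ⟨Or.inl (hc z hzK _ h1), by
    rw [nrm_smul, norm_inv, Complex.norm_real, Real.norm_eq_abs, abs_of_pos (nrm_pos hz0),
      inv_mul_cancel₀ (nrm_pos hz0).ne']⟩
  rwa [phi_smul hh h1] at h2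

theorem it_one {N : ℕ} (F : Fin N → MvPolynomial (Fin N) ℂ) : iter F 1 = F := by
  funext i
  change MvPolynomial.bind₁ (fun i => MvPolynomial.X i) (F i) = F i
  exact MvPolynomial.aeval_X_left_apply (F i)

theorem ev_cont {N : ℕ} (F : Fin N → MvPolynomial (Fin N) ℂ) : Continuous (ev F) :=
  continuous_pi fun i => MvPolynomial.continuous_eval (F i)

/-- monotonicity of the pairing in top bidegree -/
theorem pair_mono (hP1 : T_P1) (hP3 : T_P3) {k : ℕ} {S : Form (Fin (k + 1)) k}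
    (hS : ProjForm S) {φ ψ : (Fin (k + 1) → ℂ) → ℝ} {B : ℝ} (hφ : Measurable φ)
    (hB : ∀ z, z ≠ 0 → |φ z| ≤ B) (hψ : ContinuousOn ψ {0}ᶜ)
    (hle : ∀ z, z ≠ 0 → φ z ≤ ψ z) :
    pair φ S (fun _ : Fin 0 => ell) ≤ pair ψ S (fun _ : Fin 0 => ell) := by
  have h1 := hP1 (k + 1) k 0 S (fun _ : Fin 0 => ell) (fun _ => 0) rfl hS
    (fun j => j.elim0)
  have h3 := hP3 (k + 1) k 0 S (fun _ : Fin 0 => ell) rfl hS (fun j => j.elim0)
  unfold pair Iint
  refine integral_mono_ae (h1.1 φ B hφ hB) (h1.2 ψ hψ) ?_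
  filter_upwards [ki_ne (Nat.succ_pos k)
    {z : Fin (k + 1) → ℂ | 0 ≤ ell z ∧ ell z < 1}] with z hz
  exact mul_le_mul_of_nonneg_right (hle z hz) (h3.1 z hz)

theorem pf_PZ (hPNJ : T_PNJ) (hPFV : T_PFV) (hPRC : T_PRC) (hPRN : T_PRN) (hPRJ : T_PRJ)
    (hPVI : T_PVI) (hPMK : T_PMK) (hP1 : T_P1) (hP3 : T_P3) (hD12 : T_D12) :
    T_PZ := by
  intro hall N d F K hd hF hK η hη
  rcases Nat.eq_zero_or_pos N with hN | hN
  · subst hN
    refine ⟨0, 0, fun n _ => ⟨fun _ => 0, fun _ => le_refl _, ?_, ?_⟩⟩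
    · simpa using hη.le
    · intro i _ p hp
      omega
  obtain ⟨k, rfl⟩ : ∃ k, N = k + 1 := ⟨N - 1, by omega⟩
  obtain ⟨P, M, hP⟩ := hPNJ (k + 1) d F hN hd hF
  obtain ⟨CF, hCF, hfv⟩ := hPFV k d M F P hd hF hP (hall k).1 (hall k).2.1 (hall k).2.2
  obtain ⟨t, s, A, h, e, C, δ, c, r0, ε0, hI, hδ, hδ1, hc, hr0, hr01, hε0, hesc⟩ :=
    hPRC k d M F P CF hd hF hP hCF hfv
  obtain ⟨s0, hs0, hs⟩ := phi_low hI.hom hK.1 hK.2.1 (fun z hz hz0 hall0 =>
    hK.2.2 (Set.range h) (by rintro _ ⟨i, rfl⟩; exact ⟨_, hI.hom i⟩)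
      (by obtain ⟨i, hi⟩ := hI.ne; exact ⟨_, ⟨i, rfl⟩, hi⟩)
      (fun w hw => by simpa using hI.inv w hw) z hz hz0 (by simpa using hall0))
  obtain ⟨c1, hc1, hc11, hrj, -⟩ := hPRJ (k + 1) d M F P hN hd hF hP
  obtain ⟨θ, B, n0, hθ, hB, hren⟩ := hPRN k d M F P CF t s A h e C δ c r0 ε0 hd hF hP hCF hfv
    hI hδ hδ1 hc hr0 hr01 hε0 hesc s0 (1 / c1) hs0 (by positivity)
  have hθ0 : 0 < θ := by linarith
  have ht1 : 1 / θ < 1 := by rw [div_lt_one hθ0]; exact hθ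
  have ht0 : 0 < 1 / θ := by positivity
  obtain ⟨m, hm⟩ : ∃ m : ℕ, B * ((1 / θ) ^ m / (1 - 1 / θ)) ≤ η := by
    have h1 : 0 < η * (1 - 1 / θ) / B := div_pos (mul_pos hη (by linarith)) hB
    obtain ⟨m, hm⟩ := exists_pow_lt_of_lt_one h1 ht1
    refine ⟨m, ?_⟩
    rw [lt_div_iff₀ hB] at hm
    rw [← mul_div_assoc, div_le_iff₀ (by linarith)]
    linarith
  refine ⟨m + 1, n0, fun n hn => ⟨fun i => B * (1 / θ) ^ (i - 1), fun i => by positivity,
    ?_, ?_⟩⟩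
  · rcases le_or_gt (m + 1) n with hmn | hmn
    · rw [← Finset.mul_sum]
      have h1 : ∑ i ∈ Finset.Icc (m + 1) n, (1 / θ) ^ (i - 1) =
          ∑ i ∈ Finset.Ico m n, (1 / θ) ^ i := by
        rw [show Finset.Icc (m + 1) n = Finset.Ico (m + 1) (n + 1) from by ext; simp,
          ← Finset.sum_Ico_add' (fun i => (1 / θ) ^ (i - 1)) m n 1]
        rfl
      rw [h1]
      refine le_trans (mul_le_mul_of_nonneg_left
        (geom_sum_Ico_le_of_lt_one ht0.le ht1) hB.le) hm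
    · rw [Finset.Icc_eq_empty (by omega), Finset.sum_empty]
      exact hη.le
  · intro i hi p hp σ hσ hKσ hmass
    have hpk : p = k := by omega
    subst hpk
    rw [Finset.mem_Icc] at hi
    set r : ℝ := Real.exp (-((d : ℝ) ^ n / (n : ℝ) ^ 4)) with hr
    have hrp : 0 < r := Real.exp_pos _
    have hc2 : 0 < 1 / c1 * r := by positivity
    have hv := hPVI (p + 1) M P (1 / c1 * r) hP.hom hc2
    have hKσ' : InK {z | s0 ≤ phi h e z} σ := by
      intro z hz hzn I J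
      exact hKσ z hz (fun hzK => hzn (hs z hzK hz)) I J
    have h1 := hren n hn (i - 1) (by omega) σ hσ hKσ'
    have h2 := (hPMK p d (i - 1) 1 F σ hd hF hσ).2.1 (vis P M (1 / c1 * r)) hv.1
    have h3 : i - 1 + 1 = i := by omega
    rw [h3] at h2
    have h4 : pair (Set.indicator (Cr F d r) (fun _ => 1)) (Sn F d i σ)
        (fun _ : Fin 0 => ell) ≤
        EE F d i σ (fun x => vis P M (1 / c1 * r) (ev (iter F 1) x)) := by
      unfold EE
      refine pair_mono hP1 hP3 ((hD12 (p + 1) d F (by omega) hF i i).2.2.2.2 p σ hσ) (B := 1)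
        (measurable_const.indicator (ki_Cr_meas F d r)) ?_ ?_ ?_
      · intro z _
        by_cases hz : z ∈ Cr F d r
        · simp [Set.indicator_of_mem hz]
        · simp [Set.indicator_of_notMem hz]
      · rw [it_one]
        refine hv.1.smooth.continuousOn.comp (ev_cont F).continuousOn ?_
        intro z hz hz0
        exact hz (hF.nd z hz0)
      · intro z hz
        rw [it_one]
        by_cases hzC : z ∈ Cr F d r
        · rw [Set.indicator_of_mem hzC, hv.2.2.1]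
          have h5 := hrj z hz
          have h6 : nv (detP F) ((p + 1) * (d - 1)) z < r := hzC
          rw [div_mul_eq_mul_div, one_mul, le_div_iff₀ hc1]
          linarith
        · rw [Set.indicator_of_notMem hzC]
          exact (hv.2.1 _).1
    rw [h2] at h4
    rw [hmass] at h1
    refine h4.trans (h1.trans (le_of_eq ?_))
    change B / θ ^ (i - 1) * _ = B * (1 / θ) ^ (i - 1) * _
    rw [one_div_pow, mul_one_div]

end Pool.Agent.H14.EQ
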