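import Pool.Agent.H14.EQ.TIp

/-!
# Board MP_75a732_an, row TI
-/

set_option autoImplicit false

namespace Pool.Agent.H14.EQ

open scoped BigOperators ComplexConjugate ContDiff ComplexOrder
open MeasureTheory
open Pool.Agent.H92.EQ

variable {N : ℕ}

theorem eval_smul_hom {D : ℕ} {p : MvPolynomial (Fin N) ℂ} (hp : p.IsHomogeneous D) (l : ℂ)
    (x : Fin N → ℂ) : MvPolynomial.eval (l • x) p = l ^ D * MvPolynomial.eval x p := by
  rw [MvPolynomial.eval_eq', MvPolynomial.eval_eq', Finset.mul_sum]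
  refine Finset.sum_congr rfl fun m hm => ?_
  have h1 : m.degree = D := by
    by_contra h
    exact (MvPolynomial.mem_support_iff.1 hm) (hp.coeff_eq_zero h)
  have h2 : ∏ i, ((l • x) i) ^ m i = l ^ D * ∏ i, x i ^ m i := by
    simp_rw [Pi.smul_apply, smul_eq_mul, mul_pow]
    rw [Finset.prod_mul_distrib, Finset.prod_pow_eq_pow_sum, ← h1, Finsupp.degree_eq_sum]
  rw [h2]
  ring

theorem ev_smul {D : ℕ} {Φ : Fin N → MvPolynomial (Fin N) ℂ} (hΦ : IsH D Φ) (l : ℂ)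
    (x : Fin N → ℂ) : ev Φ (l • x) = l ^ D • ev Φ x := by
  funext i
  exact eval_smul_hom (hΦ.hom i) l x

theorem wv_isOpen {V : Set ℂ} (hV : IsOpen V) : IsOpen (WV N V) := by
  unfold WV tl
  refine (hV.preimage (continuous_apply 0)).inter ?_
  exact isOpen_ne_fun (continuous_pi fun i => continuous_apply _) continuous_const

theorem tl_smooth : ContDiff ℝ ∞ (tl : (Fin (N + 1) → ℂ) → Fin N → ℂ) :=
  contDiff_pi.2 fun i => contDiff_apply ℝ ℂ i.succ

/-- functions of `x` only -/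
theorem lht_tl {V : Set ℂ} {c : ℝ} {u : (Fin N → ℂ) → ℝ} (hu : LH c u) :
    LHT V c (fun z => u (tl z)) := by
  refine ⟨?_, ?_⟩
  · exact hu.smooth.comp tl_smooth.contDiffOn fun z hz => hz.2
  · intro l z hl hz
    exact hu.hom l (tl z) hl hz.2

theorem cx_smooth {ι : Type} [Fintype ι] {U : Set (ι → ℂ)} {f : (ι → ℂ) → ℝ}
    (hf : ContDiffOn ℝ ∞ f U) : ContDiffOn ℝ ∞ (cx f) U :=
  Complex.ofRealCLM.contDiff.comp_contDiffOn hf

/-- the Hessian of a difference -/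
theorem hessR_sub {ι : Type} [Fintype ι] [DecidableEq ι] (hW6 : T_W6) {U : Set (ι → ℂ)}
    (hU : IsOpen U) {f g : (ι → ℂ) → ℝ} (hf : ContDiffOn ℝ ∞ f U) (hg : ContDiffOn ℝ ∞ g U)
    {z : ι → ℂ} (hz : z ∈ U) :
    hessR (fun y => f y - g y) z = hessR f z + (-1 : ℂ) • hessR g z := by
  have hd : ∀ {F : (ι → ℂ) → ℂ}, ContDiffOn ℝ ∞ F U → ∀ y ∈ U, DifferentiableAt ℝ F y :=
    fun hF y hy => (hF.contDiffAt (hU.mem_nhds hy)).differentiableAt (by simp)
  funext a b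
  have e1 : ∀ y ∈ U, wdb b (fun w => ((f w - g w : ℝ) : ℂ)) y =
      wdb b (cx f) y - wdb b (cx g) y := by
    intro y hy
    have h1 : (fun w => ((f w - g w : ℝ) : ℂ)) = fun w => cx f w - cx g w := by
      funext w
      simp [cx]
    rw [h1]
    unfold wdb
    rw [fderiv_fun_sub (hd (cx_smooth hf) y hy) (hd (cx_smooth hg) y hy)]
    simp only [_root_.sub_apply]
    ring
  have e2 : (fun y => wdb b (fun w => ((f w - g w : ℝ) : ℂ)) y) =ᶠ[nhds z]
      fun y => wdb b (cx f) y - wdb b (cx g) y := by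
    filter_upwards [hU.mem_nhds hz] with y hy using e1 y hy
  have s1 := hd (hW6 ι b (cx f) U hU (cx_smooth hf)).2 z hz
  have s2 := hd (hW6 ι b (cx g) U hU (cx_smooth hg)).2 z hz
  show wd a (fun y => wdb b (fun w => ((f w - g w : ℝ) : ℂ)) y) z =
    wd a (fun y => wdb b (cx f) y) z + (-1 : ℂ) * wd a (fun y => wdb b (cx g) y) z
  unfold wd
  rw [e2.fderiv_eq, fderiv_fun_sub s1 s2]
  simp only [_root_.sub_apply]
  ring

/-- the first slot -/
theorem snoc_cons_update {q : ℕ} (v0 v1 : (Fin (N + 1) → ℂ) → ℝ)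
    (v : Fin q → (Fin (N + 1) → ℂ) → ℝ) (z : Fin (N + 1) → ℂ)
    (R : Matrix (Fin (N + 1)) (Fin (N + 1)) ℂ) :
    (Fin.snoc (α := fun _ => Matrix (Fin (N + 1)) (Fin (N + 1)) ℂ)
      (fun j => hessR ((Fin.cons v0 v : Fin (q + 1) → (Fin (N + 1) → ℂ) → ℝ) j) z) R :
        Fin (q + 1 + 1) → Matrix (Fin (N + 1)) (Fin (N + 1)) ℂ) =
    Function.update (Fin.snoc (α := fun _ => Matrix (Fin (N + 1)) (Fin (N + 1)) ℂ)
      (fun j => hessR ((Fin.cons v1 v : Fin (q + 1) → (Fin (N + 1) → ℂ) → ℝ) j) z) R) 0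
      (hessR v0 z) := by
  funext k
  refine Fin.lastCases ?_ (fun j => ?_) k
  · rw [Fin.snoc_last, Function.update_of_ne (Fin.last_pos).ne', Fin.snoc_last]
  · rw [Fin.snoc_castSucc]
    refine Fin.cases ?_ (fun j => ?_) j
    · rw [Fin.cons_zero, Fin.castSucc_zero, Function.update_self]
    · rw [Fin.cons_succ, Function.update_of_ne, Fin.snoc_castSucc, Fin.cons_succ]
      intro h
      exact absurd (congrArg Fin.val h) (by simp)

/-- linearity of the density in the first slot -/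
theorem QT_sub {p q : ℕ} (hW6 : T_W6) (hA1 : T_A1) {V : Set ℂ} (hV : IsOpen V)
    (S : Form (Fin (N + 1)) p) {f g : (Fin (N + 1) → ℂ) → ℝ}
    (hf : ContDiffOn ℝ ∞ f (WV N V)) (hg : ContDiffOn ℝ ∞ g (WV N V))
    (v : Fin q → (Fin (N + 1) → ℂ) → ℝ) {z : Fin (N + 1) → ℂ} (hz : z ∈ WV N V) :
    QT S (Fin.cons (fun y => f y - g y) v : Fin (q + 1) → (Fin (N + 1) → ℂ) → ℝ) z =
      QT S (Fin.cons f v : Fin (q + 1) → (Fin (N + 1) → ℂ) → ℝ) z -
      QT S (Fin.cons g v : Fin (q + 1) → (Fin (N + 1) → ℂ) → ℝ) z := by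
  unfold QT
  rw [snoc_cons_update (fun y => f y - g y) f v z (RadT z),
    snoc_cons_update g f v z (RadT z), hessR_sub hW6 (wv_isOpen hV) hf hg hz]
  rw [(hA1 _ p (q + 1 + 1) (S z) (S z) _ 0 (hessR f z) ((-1 : ℂ) • hessR g z) 0).1,
    (hA1 _ p (q + 1 + 1) (S z) (S z) _ 0 (hessR g z) 0 (-1)).2.1,
    ← snoc_cons_update f f v z (RadT z)]
  simp
  ring

/-- continuous functions are integrable over the shell -/
theorem shell_int (hN : 0 < N) {g : (Fin N → ℂ) → ℝ} (hg : ContinuousOn g {0}ᶜ) :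
    IntegrableOn g {z : Fin N → ℂ | 0 ≤ ell z ∧ ell z < 1} := by
  have hc : Continuous (nsq : (Fin N → ℂ) → ℝ) := by
    unfold nsq
    fun_prop
  have hK : IsCompact {z : Fin N → ℂ | 1 ≤ nsq z ∧ nsq z ≤ Real.exp 2} := by
    refine Metric.isCompact_of_isClosed_isBounded
      ((isClosed_le continuous_const hc).inter (isClosed_le hc continuous_const)) ?_
    refine (Metric.isBounded_closedBall (x := (0 : Fin N → ℂ)) (r := Real.exp 1)).subset ?_
    intro z hz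
    rw [mem_closedBall_zero_iff, pi_norm_le_iff_of_nonneg (Real.exp_pos 1).le]
    intro i
    have h1 : ‖z i‖ ^ 2 ≤ nsq z :=
      Finset.single_le_sum (f := fun i => ‖z i‖ ^ 2) (fun i _ => sq_nonneg _)
        (Finset.mem_univ i)
    have h2 : ‖z i‖ ^ 2 ≤ Real.exp 1 ^ 2 := by
      rw [← Real.exp_nat_mul]
      exact (h1.trans hz.2).trans (le_of_eq (by norm_num))
    exact abs_le_of_sq_le_sq' h2 (Real.exp_pos 1).le |>.2
  have h0 : ∀ z ∈ {z : Fin N → ℂ | 1 ≤ nsq z ∧ nsq z ≤ Real.exp 2}, z ≠ 0 := by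
    rintro z hz rfl
    have h1 : nsq (0 : Fin N → ℂ) = 0 := by simp [nsq]
    have h2 := hz.1
    rw [h1] at h2
    linarith
  have hi : IntegrableOn g {z : Fin N → ℂ | 1 ≤ nsq z ∧ nsq z ≤ Real.exp 2} :=
    (hg.mono fun z hz => h0 z hz).integrableOn_compact hK
  have hne : Nonempty (Fin N) := ⟨⟨0, hN⟩⟩
  have hz : IntegrableOn g {(0 : Fin N → ℂ)} :=
    integrableOn_singleton enorm_ne_top (by rw [measure_singleton]; exact ENNReal.zero_lt_top)
  refine (hi.union hz).mono_set ?_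
  rintro z ⟨h1, h2⟩
  by_cases hz0 : z = 0
  · exact Or.inr hz0
  left
  have hpos : 0 < nsq z := by
    obtain ⟨i, hi⟩ := Function.ne_iff.1 hz0
    exact Finset.sum_pos' (fun i _ => sq_nonneg _) ⟨i, Finset.mem_univ i,
      pow_pos (norm_pos_iff.2 hi) 2⟩
  unfold ell at h1 h2
  refine ⟨?_, ?_⟩
  · by_contra hcon
    have := Real.log_neg hpos (not_le.1 hcon)
    linarith
  · have h3 : Real.log (nsq z) ≤ 2 := by linarith
    exact (Real.log_le_iff_le_exp hpos).1 h3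

/-- linearity of the density over `V` in the first slot -/
theorem mT_sub {p q : ℕ} (hN : 0 < N) (hW6 : T_W6) (hA1 : T_A1) (hTC : T_TC) {V : Set ℂ}
    (hV : IsOpen V) (S : Form (Fin (N + 1)) p) (hS : FormT V S)
    {f g : (Fin (N + 1) → ℂ) → ℝ} {c c' : ℝ} (hf : LHT V c f) (hg : LHT V c' g)
    (v : Fin q → (Fin (N + 1) → ℂ) → ℝ) (cv : Fin q → ℝ) (hv : ∀ j, LHT V (cv j) (v j))
    {t : ℂ} (ht : t ∈ V) :
    mT S (Fin.cons (fun y => f y - g y) v : Fin (q + 1) → (Fin (N + 1) → ℂ) → ℝ) t =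
      mT S (Fin.cons f v : Fin (q + 1) → (Fin (N + 1) → ℂ) → ℝ) t -
      mT S (Fin.cons g v : Fin (q + 1) → (Fin (N + 1) → ℂ) → ℝ) t := by
  have hmem : ∀ x : Fin N → ℂ, x ≠ 0 → ct t x ∈ WV N V := fun x hx => ⟨ht, hx⟩
  have hct : Continuous (fun x : Fin N → ℂ => ct t x) := by
    refine continuous_pi fun i => ?_
    refine Fin.cases ?_ (fun i => ?_) i
    · exact continuous_const
    · exact continuous_apply i
  have hint : ∀ (h : (Fin (N + 1) → ℂ) → ℝ) (c0 : ℝ), LHT V c0 h →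
      IntegrableOn (fun x => QT S (Fin.cons h v : Fin (q + 1) → (Fin (N + 1) → ℂ) → ℝ) (ct t x))
        {z : Fin N → ℂ | 0 ≤ ell z ∧ ell z < 1} := by
    intro h c0 hh
    refine shell_int hN ?_
    have h1 := (hTC N p (q + 1) V S (Fin.cons h v : Fin (q + 1) → (Fin (N + 1) → ℂ) → ℝ)
      (Fin.cons c0 cv : Fin (q + 1) → ℝ) hV hS (fun j => by
        refine Fin.cases ?_ (fun j => ?_) j
        · exact hh
        · exact hv j)).2.2.2.1
    exact h1.comp hct.continuousOn fun x hx => hmem x hx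
  unfold mT Iint
  rw [← integral_sub (hint f c hf) (hint g c' hg)]
  have hne : Nonempty (Fin N) := ⟨⟨0, hN⟩⟩
  refine integral_congr_ae ?_
  have hae : ∀ᵐ x : Fin N → ℂ, x ≠ 0 := by
    rw [ae_iff]
    simp
  filter_upwards [ae_restrict_of_ae hae] with x hx
  exact QT_sub hW6 hA1 hV S hf.smooth hg.smooth v (hmem x hx)

/-- a potential against the potential of the map -/
theorem pot_bound {D : ℕ} (hD : 1 ≤ D) (hL1 : T_L1) (hL3 : T_L3) (hL6 : T_L6)
    {Φ : Fin N → MvPolynomial (Fin N) ℂ} (hΦ : IsH D Φ) {v : (Fin N → ℂ) → ℝ} (hv : Pot v) :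
    ∃ B : ℝ, 0 < B ∧ ∀ x, x ≠ 0 → |v x - (1 / (D : ℝ)) * ell (ev Φ x)| ≤ B := by
  have hD0 : (D : ℝ) ≠ 0 := by
    have : 0 < (D : ℝ) := by exact_mod_cast hD
    exact this.ne'
  have h1 : LH 1 v := (hL1 N 1 1 1 1 v v).2.2.1 hv
  have h2 : LH 1 (ell : (Fin N → ℂ) → ℝ) := (hL1 N 1 1 1 1 ell ell).2.2.1 (hL3 N).1
  have h3 := (hL1 N 1 1 1 1 (ell : (Fin N → ℂ) → ℝ) v).2.2.2 D Φ hΦ h2
  have h4 := (hL1 N 1 (D * 1) 1 (-(1 / (D : ℝ))) v (fun z => ell (ev Φ z))).1 h1 h3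
  have h5 : (1 : ℝ) * 1 + -(1 / (D : ℝ)) * (D * 1) = 0 := by
    field_simp
    ring
  rw [h5] at h4
  have h6 := (hL1 N 0 0 0 0 _ v).2.1.2 h4
  obtain ⟨B, hB, hb⟩ := (hL6 N).1 _ h6.smooth.continuousOn
    (fun r z hr hz => h6.hom (r : ℂ) z (by exact_mod_cast hr.ne') hz)
  refine ⟨B, hB, fun x hx => ?_⟩
  have h7 := hb x hx
  have h8 : v x - (1 / (D : ℝ)) * ell (ev Φ x) =
      1 * v x + -(1 / (D : ℝ)) * ell (ev Φ x) := by ring
  rw [h8]
  exact h7

theorem pf_TI (hW6 : T_W6) (hA1 : T_A1) (hTB : T_TB) (hTC : T_TC) (hTD : T_TD) (hTF : T_TF)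
    (hTG : T_TG) (hTN : T_TN) (hL1 : T_L1) (hL3 : T_L3) (hL6 : T_L6) : T_TI := by
  intro N p q D Φ S w w' u X i j t1 hN hD hΦ hS hw hw' hu hdet ht1
  have hN0 : 0 < N := by omega
  have hD0 : 0 < (D : ℝ) := by exact_mod_cast hD
  have hV : IsOpen ({t1}ᶜ : Set ℂ) := isOpen_compl_singleton
  have hG1 : ∀ (l : ℂ) (z : Fin (N + 1) → ℂ),
      ev (GP Φ X i j) (ct (z 0) (l • tl z)) = l ^ D • ev (GP Φ X i j) z := by
    intro l z
    rw [ev_GP', ev_GP']
    have h1 : tl (ct (z 0) (l • tl z)) = l • tl z := rfl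
    have h2 : ct (z 0) (l • tl z) 0 = z 0 := rfl
    rw [h1, h2, ev_smul hΦ, Matrix.mulVec_smul]
  have hdt : ∀ t, t ≠ t1 → (Matrix.of (rep X i j t)).det ≠ 0 := fun t ht h0 =>
    ht ((ht1 t).1 h0)
  have hG2 : ∀ z ∈ WV N ({t1}ᶜ : Set ℂ), ev (GP Φ X i j) z ≠ 0 := by
    intro z hz h0
    rw [ev_GP'] at h0
    exact hz.2 (hΦ.nd _ (Matrix.eq_zero_of_mulVec_eq_zero (hdt _ hz.1) h0))
  obtain ⟨hFT, -, -⟩ := hTB N p D {t1}ᶜ (GP Φ X i j) S hV hD hG1 hG2 hS
  obtain ⟨t1', C1, h1', hC1⟩ := hTG N X i j hdet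
  have htt : t1' = t1 := (ht1 t1').1 ((h1' t1').2 rfl)
  subst htt
  have hLw : LH 1 w := (hL1 N 1 1 1 1 w w).2.2.1 hw
  have hLw' : LH 1 w' := (hL1 N 1 1 1 1 w' w').2.2.1 hw'
  have hLu : ∀ k, LH 1 (u k) := fun k => (hL1 N 1 1 1 1 (u k) (u k)).2.2.1 (hu k)
  have hL0 : LH 0 (fun z => w z - w' z) := by
    have h1 := (hL1 N 1 1 1 (-1) w w').1 hLw hLw'
    have h2 : (fun z => (1 : ℝ) * w z + -1 * w' z) = fun z => w z - w' z := by
      funext z
      ring
    rw [h2] at h1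
    have h3 : (1 : ℝ) * 1 + -1 * 1 = 0 := by norm_num
    rwa [h3] at h1
  have hhom : Hom0 (fun z => w z - w' z) := (hL1 N 0 0 0 0 (fun z => w z - w' z) w').2.1.2 hL0
  obtain ⟨B0, hB0, hBb⟩ := (hL6 N).1 (fun z => w z - w' z) hhom.smooth.continuousOn
    (fun r z hr hz => hhom.hom (r : ℂ) z (by exact_mod_cast hr.ne') hz)
  obtain ⟨hcont, hbd, hmass⟩ :=
    hTN N p q D Φ S (fun z => w z - w' z) u B0 hN hD hΦ hS hhom hu hBb
  have hms : 0 ≤ mass q S := by
    have h1 := (abs_nonneg _).trans (hbd 1 (by simp))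
    have h2 : 0 < B0 * (D : ℝ) ^ p := by positivity
    rw [← mul_assoc] at h1
    exact nonneg_of_mul_nonneg_right h1 h2
  -- one potential in the first slot
  have part : ∀ u0 : (Fin N → ℂ) → ℝ, Pot u0 → ∃ (F : ℂ → ℝ) (C : ℝ),
      (∀ t, t ≠ t1' → 0 ≤ mT (pull (GP Φ X i j) S)
        (fun k z => (Fin.cons u0 u : Fin (q + 1) → (Fin N → ℂ) → ℝ) k (tl z)) t) ∧
      ContinuousOn (mT (pull (GP Φ X i j) S)
        (fun k z => (Fin.cons u0 u : Fin (q + 1) → (Fin N → ℂ) → ℝ) k (tl z))) {t1'}ᶜ ∧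
      ContinuousOn F {t1'}ᶜ ∧
      (∀ t, t ≠ t1' → |F t| ≤ (q + 1) * N * ((D : ℝ) ^ p / D) * mass q S *
        |Real.log ‖t - t1'‖| + C) ∧
      Weak {t1'}ᶜ F (mT (pull (GP Φ X i j) S)
        (fun k z => (Fin.cons u0 u : Fin (q + 1) → (Fin N → ℂ) → ℝ) k (tl z))) := by
    intro u0 hu0
    have hPot : ∀ k, Pot ((Fin.cons u0 u : Fin (q + 1) → (Fin N → ℂ) → ℝ) k) := by
      intro k
      refine Fin.cases ?_ (fun k => ?_) k
      · exact hu0
      · exact hu k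
    choose B hB hBk using fun k => pot_bound hD hL1 hL3 hL6 hΦ (hPot k)
    have hBs : ∀ k, B k ≤ ∑ k, B k := fun k =>
      Finset.single_le_sum (fun k _ => (hB k).le) (Finset.mem_univ k)
    obtain ⟨k1, k2, F, k3, k4, k5⟩ := hTF N p q D {t1'}ᶜ (GP Φ X i j) S
      (Fin.cons u0 u : Fin (q + 1) → (Fin N → ℂ) → ℝ)
      (fun t => (∑ k, B k) + (1 / (D : ℝ)) * (N * |Real.log ‖t - t1'‖| + C1))
      hN hV hD hG1 hG2 hS hPot (by
        intro t ht x hx k
        have e1 : ev (GP Φ X i j) (ct t x) = (Matrix.of (rep X i j t)).mulVec (ev Φ x) :=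
          ev_GP' Φ X i j (ct t x)
        have e2 : ev Φ x ≠ 0 := fun h => hx (hΦ.nd x h)
        have e3 := hC1 t ht (ev Φ x) e2
        have e4 := hBk k x hx
        rw [e1]
        have e5 : (Fin.cons u0 u : Fin (q + 1) → (Fin N → ℂ) → ℝ) k x -
            1 / (D : ℝ) * ell ((Matrix.of (rep X i j t)).mulVec (ev Φ x)) =
            ((Fin.cons u0 u : Fin (q + 1) → (Fin N → ℂ) → ℝ) k x -
              1 / (D : ℝ) * ell (ev Φ x)) -
            1 / (D : ℝ) * (ell ((Matrix.of (rep X i j t)).mulVec (ev Φ x)) -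
              ell (ev Φ x)) := by ring
        rw [e5]
        refine (abs_sub _ _).trans (add_le_add (e4.trans (hBs k)) ?_)
        rw [abs_mul, abs_of_pos (by positivity : (0 : ℝ) < 1 / D)]
        exact mul_le_mul_of_nonneg_left e3 (by positivity))
    refine ⟨F, (q + 1) * ((∑ k, B k) + C1 / D) * ((D : ℝ) ^ p * mass q S), fun t ht => k1 t ht,
      k2, k3, fun t ht => ?_, k5⟩
    refine (k4 t ht).trans (le_of_eq ?_)
    have e6 : mass q (res (pull (GP Φ X i j) S) t) = (D : ℝ) ^ p * mass q S := by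
      rw [res_pull]
      exact (hmass (Matrix.of (rep X i j t)) (hdt t ht)).2
    rw [e6]
    field_simp
    ring
  obtain ⟨F, C, a1, a2, a3, a4, a5⟩ := part w hw
  obtain ⟨F', C', b1, b2, b3, b4, b5⟩ := part w' hw'
  refine ⟨_, _, F, F', max C C', fun t ht => ⟨a1 t ht, b1 t ht⟩, a2, b2, a3, b3,
    fun t ht => (a4 t ht).trans (add_le_add_right (le_max_left _ _) _),
    fun t ht => (b4 t ht).trans (add_le_add_right (le_max_right _ _) _), a5, b5, ?_, ?_⟩
  · refine hcont.comp (Continuous.continuousOn ?_) fun t ht => hdt t ht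
    unfold rep
    exact continuous_const.update i (continuous_const.update j continuous_id)
  · have hWk := hTD N p q {t1'}ᶜ (pull (GP Φ X i j) S) (fun z => w (tl z) - w' (tl z))
      (fun k z => u k (tl z)) (fun _ => 1) hN hV hFT (lht_tl hL0) (fun k => lht_tl (hLu k))
    intro f hf
    have e1 := hWk f hf
    have e2 : ∀ t, pair (fun x => w (tl (ct t x)) - w' (tl (ct t x)))
        (res (pull (GP Φ X i j) S) t) (fun k x => u k (tl (ct t x))) =
        am (fun z => w z - w' z) Φ S u (Matrix.of (rep X i j t)) := by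
      intro t
      rw [res_pull]
      rfl
    simp only [e2] at e1
    rw [e1]
    refine integral_congr_ae (Filter.Eventually.of_forall fun t => ?_)
    by_cases ht : t ∈ ({t1'}ᶜ : Set ℂ)
    · have e3 := mT_sub (p := p) hN0 hW6 hA1 hTC hV (pull (GP Φ X i j) S) hFT
        (lht_tl (V := {t1'}ᶜ) hLw) (lht_tl (V := {t1'}ᶜ) hLw') (fun k z => u k (tl z))
        (fun _ => 1) (fun k => lht_tl (hLu k)) ht
      have e4 : ∀ v0 : (Fin N → ℂ) → ℝ,
          (Fin.cons (fun z => v0 (tl z)) (fun k z => u k (tl z)) :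
            Fin (q + 1) → (Fin (N + 1) → ℂ) → ℝ) =
          fun k z => (Fin.cons v0 u : Fin (q + 1) → (Fin N → ℂ) → ℝ) k (tl z) := by
        intro v0
        funext k z
        refine Fin.cases ?_ (fun k => ?_) k
        · rfl
        · rfl
      rw [e4 w, e4 w'] at e3
      simp only
      rw [← e3]
    · have e5 : f t = 0 := by
        by_contra hne
        exact ht (hf.sub (subset_tsupport f hne))
      simp only [e5, zero_mul]

end Pool.Agent.H14.EQ
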