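import Pool.Agent.H92.EQ.TL
import Pool.Agent.H14.EQ.TI

/-!
# Board MP_75a732_an, row IG
-/

set_option autoImplicit false

namespace Pool.Agent.H14.EQ

open scoped BigOperators ComplexConjugate ContDiff ComplexOrder
open MeasureTheory
open Pool.Agent.H92.EQ

variable {N : ℕ}

/-- the coefficient of `T I' J'` in the exterior product -/
noncomputable def cf {p m : ℕ} (Φ : Fin N → MvPolynomial (Fin N) ℂ) (z : Fin N → ℂ)
    (H : Fin m → Matrix (Fin N) (Fin N) ℂ) (I' J' : Fin p → Fin N) : ℂ :=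
  mixD (fun I J => (∏ l, jac Φ z (I' l) (I l)) * ∏ l, conj (jac Φ z (J' l) (J l))) H

theorem sum_swap {α β : Type} [Fintype α] [Fintype β] (f : α → α → β → β → ℂ) :
    ∑ e, ∑ e', ∑ I, ∑ J, f e e' I J = ∑ I, ∑ J, ∑ e, ∑ e', f e e' I J := by
  calc ∑ e, ∑ e', ∑ I, ∑ J, f e e' I J = ∑ e, ∑ I, ∑ e', ∑ J, f e e' I J :=
        Finset.sum_congr rfl fun e _ => Finset.sum_comm
    _ = ∑ I, ∑ e, ∑ e', ∑ J, f e e' I J := Finset.sum_comm
    _ = ∑ I, ∑ e, ∑ J, ∑ e', f e e' I J :=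
        Finset.sum_congr rfl fun I _ => Finset.sum_congr rfl fun e _ => Finset.sum_comm
    _ = ∑ I, ∑ J, ∑ e, ∑ e', f e e' I J :=
        Finset.sum_congr rfl fun I _ => Finset.sum_comm

theorem mix_pull {p m : ℕ} (Φ : Fin N → MvPolynomial (Fin N) ℂ) (T : Form (Fin N) p)
    (z : Fin N → ℂ) (H : Fin m → Matrix (Fin N) (Fin N) ℂ) :
    mixD (pull Φ T z) H = ∑ I', ∑ J', T (ev Φ z) I' J' * cf Φ z H I' J' := by
  have h1 : mixD (pull Φ T z) H = ∑ e : (Fin p ⊕ Fin m) ≃ Fin N,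
      ∑ e' : (Fin p ⊕ Fin m) ≃ Fin N, ∑ I' : Fin p → Fin N, ∑ J' : Fin p → Fin N,
      T (ev Φ z) I' J' * (((Equiv.Perm.sign (e.trans e'.symm) : ℤ) : ℂ) *
        ((∏ l, jac Φ z (I' l) (e (Sum.inl l))) *
          ∏ l, conj (jac Φ z (J' l) (e' (Sum.inl l)))) *
        ∏ j, H j (e (Sum.inr j)) (e' (Sum.inr j))) := by
    unfold mixD pull
    refine Finset.sum_congr rfl fun e _ => Finset.sum_congr rfl fun e' _ => ?_
    rw [Finset.mul_sum, Finset.sum_mul]
    refine Finset.sum_congr rfl fun I' _ => ?_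
    rw [Finset.mul_sum, Finset.sum_mul]
    refine Finset.sum_congr rfl fun J' _ => ?_
    ring
  rw [h1, sum_swap]
  refine Finset.sum_congr rfl fun I' _ => Finset.sum_congr rfl fun J' _ => ?_
  unfold cf mixD
  rw [Finset.mul_sum]
  refine Finset.sum_congr rfl fun e _ => ?_
  rw [Finset.mul_sum]

/-- the matrices of the density -/
noncomputable def HH {q : ℕ} (u : Fin q → (Fin N → ℂ) → ℝ) (z : Fin N → ℂ) :
    Fin (q + 1) → Matrix (Fin N) (Fin N) ℂ :=
  Fin.snoc (α := fun _ => Matrix (Fin N) (Fin N) ℂ) (fun j => hessR (u j) z) (Rad z)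

theorem HH_cont {q : ℕ} (hW6 : T_W6) {u : Fin q → (Fin N → ℂ) → ℝ} (hu : ∀ j, Pot (u j))
    (k : Fin (q + 1)) (a b : Fin N) :
    ContinuousOn (fun z : Fin N → ℂ => HH u z k a b) {0}ᶜ := by
  unfold HH
  refine Fin.lastCases ?_ (fun j => ?_) k
  · simp only [Fin.snoc_last]
    unfold Rad
    refine ContinuousOn.div (by fun_prop) ?_ ?_
    · unfold nsq
      fun_prop
    · intro z hz h0
      have h1 : nsq z = 0 := by
        have h2 := h0
        simp only [mul_eq_zero, OfNat.ofNat_ne_zero, pow_eq_zero_iff, ne_eq, not_false_eq_true,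
          Complex.ofReal_eq_zero, false_or] at h2
        exact h2
      obtain ⟨i, hi⟩ := Function.ne_iff.1 hz
      have h3 : 0 < nsq z := Finset.sum_pos' (fun _ _ => sq_nonneg _) ⟨i, Finset.mem_univ i,
        pow_pos (norm_pos_iff.2 hi) 2⟩
      exact h3.ne' h1
  · simp only [Fin.snoc_castSucc]
    have hU : IsOpen ({0}ᶜ : Set (Fin N → ℂ)) := isOpen_compl_singleton
    have h1 := (hW6 (Fin N) b (cx (u j)) {0}ᶜ hU (cx_smooth (hu j).smooth)).2
    exact (hW6 (Fin N) a (fun w => wdb b (cx (u j)) w) {0}ᶜ hU h1).1.continuousOn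

theorem jac_cont (Φ : Fin N → MvPolynomial (Fin N) ℂ) (i a : Fin N) :
    Continuous (fun z : Fin N → ℂ => jac Φ z i a) :=
  MvPolynomial.continuous_eval _

theorem ev_cont (Φ : Fin N → MvPolynomial (Fin N) ℂ) : Continuous (ev Φ) :=
  continuous_pi fun _ => MvPolynomial.continuous_eval _

theorem cf_cont {p q : ℕ} (hW6 : T_W6) (Φ : Fin N → MvPolynomial (Fin N) ℂ)
    {u : Fin q → (Fin N → ℂ) → ℝ} (hu : ∀ j, Pot (u j)) (I' J' : Fin p → Fin N) :
    ContinuousOn (fun z : Fin N → ℂ => cf Φ z (HH u z) I' J') {0}ᶜ := by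
  unfold cf mixD
  refine continuousOn_finsetSum _ fun e _ => continuousOn_finsetSum _ fun e' _ => ?_
  refine ContinuousOn.mul (ContinuousOn.mul continuousOn_const ?_) ?_
  · refine ContinuousOn.mul ?_ ?_
    · exact (continuous_finsetProd _ fun l _ => jac_cont Φ _ _).continuousOn
    · exact (continuous_finsetProd _ fun l _ =>
        Complex.continuous_conj.comp (jac_cont Φ _ _)).continuousOn
  · exact continuousOn_finsetProd _ fun j _ => HH_cont hW6 hu _ _ _

theorem ae_ne_zero (hN : 0 < N) (s : Set (Fin N → ℂ)) :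
    ∀ᵐ z ∂((volume : Measure (Fin N → ℂ)).restrict s), z ≠ 0 := by
  have hne : Nonempty (Fin N) := ⟨⟨0, hN⟩⟩
  refine ae_restrict_of_ae ?_
  rw [ae_iff]
  simp

/-- measurability of the pull-back as a function of the matrix and the point -/
theorem meas_pull {p : ℕ} (hN : 0 < N) (hTH : T_TH) (hD13 : T_D13)
    {D : ℕ} {Φ : Fin N → MvPolynomial (Fin N) ℂ} (hΦ : IsH D Φ) {S : Form (Fin N) p}
    (hS : ProjForm S) (I J : Fin p → Fin N) (s : Set (Fin N → ℂ)) :
    AEStronglyMeasurable (fun w : (Fin N → Fin N → ℂ) × (Fin N → ℂ) =>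
      pull (lin (Matrix.of w.1)) S (ev Φ w.2) I J)
      ((volume : Measure (Fin N → Fin N → ℂ)).prod
        ((volume : Measure (Fin N → ℂ)).restrict s)) := by
  have hc : Continuous fun w : (Fin N → Fin N → ℂ) × (Fin N → ℂ) =>
      (Matrix.of w.1).mulVec (ev Φ w.2) := by
    refine continuous_pi fun i => ?_
    unfold Matrix.mulVec dotProduct
    refine continuous_finsetSum _ fun k _ => Continuous.mul ?_ ?_
    · exact (continuous_apply k).comp ((continuous_apply i).comp continuous_fst)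
    · exact (continuous_apply k).comp ((ev_cont Φ).comp continuous_snd)
  have hopen : IsOpen {w : (Fin N → Fin N → ℂ) × (Fin N → ℂ) |
      (Matrix.of w.1).mulVec (ev Φ w.2) ≠ 0} := isOpen_ne_fun hc continuous_const
  have hcont : ContinuousOn (fun w : (Fin N → Fin N → ℂ) × (Fin N → ℂ) =>
      pull (lin (Matrix.of w.1)) S (ev Φ w.2) I J)
      {w | (Matrix.of w.1).mulVec (ev Φ w.2) ≠ 0} := by
    have he : ∀ w : (Fin N → Fin N → ℂ) × (Fin N → ℂ),
        pull (lin (Matrix.of w.1)) S (ev Φ w.2) I J = ∑ I', ∑ J',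
          S ((Matrix.of w.1).mulVec (ev Φ w.2)) I' J' * (∏ l, w.1 (I' l) (I l)) *
            ∏ l, conj (w.1 (J' l) (J l)) := by
      intro w
      unfold pull
      rw [(hD13 N (Matrix.of w.1) 1 (ev Φ w.2)).1, (hD13 N (Matrix.of w.1) 1 (ev Φ w.2)).2.1]
      rfl
    simp only [he]
    refine continuousOn_finsetSum _ fun I' _ => continuousOn_finsetSum _ fun J' _ => ?_
    refine ContinuousOn.mul (ContinuousOn.mul ?_ ?_) ?_
    · exact (hS.cp.smooth I' J').continuousOn.comp hc.continuousOn fun w hw => hw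
    · exact (continuous_finsetProd _ fun l _ => (continuous_apply (I l)).comp
        ((continuous_apply (I' l)).comp continuous_fst)).continuousOn
    · exact (continuous_finsetProd _ fun l _ => Complex.continuous_conj.comp
        ((continuous_apply (J l)).comp
        ((continuous_apply (J' l)).comp continuous_fst))).continuousOn
  have h1 := hcont.aestronglyMeasurable (μ := (volume : Measure (Fin N → Fin N → ℂ)).prod
        ((volume : Measure (Fin N → ℂ)).restrict s)) hopen.measurableSet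
  have hae : ∀ᵐ w ∂((volume : Measure (Fin N → Fin N → ℂ)).prod
      ((volume : Measure (Fin N → ℂ)).restrict s)),
      w ∈ {w : (Fin N → Fin N → ℂ) × (Fin N → ℂ) |
        (Matrix.of w.1).mulVec (ev Φ w.2) ≠ 0} := by
    have a1 := Measure.quasiMeasurePreserving_fst (μ := (volume : Measure (Fin N → Fin N → ℂ)))
      (ν := (volume : Measure (Fin N → ℂ)).restrict s) |>.ae (hTH N ⟨0, hN⟩ ⟨0, hN⟩).1
    have a2 := Measure.quasiMeasurePreserving_snd (μ := (volume : Measure (Fin N → Fin N → ℂ)))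
      (ν := (volume : Measure (Fin N → ℂ)).restrict s) |>.ae (ae_ne_zero hN s)
    filter_upwards [a1, a2] with w hw1 hw2 h0
    exact hw2 (hΦ.nd _ (Matrix.eq_zero_of_mulVec_eq_zero hw1 h0))
  rwa [Measure.restrict_eq_self_of_ae_mem hae] at h1

/-- the terms of the density -/
noncomputable def gg {p q : ℕ} (Φ : Fin N → MvPolynomial (Fin N) ℂ) (S : Form (Fin N) p)
    (φ : (Fin N → ℂ) → ℝ) (u : Fin q → (Fin N → ℂ) → ℝ) (I J : Fin p → Fin N)
    (w : (Fin N → Fin N → ℂ) × (Fin N → ℂ)) : ℂ :=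
  (gss w.1 : ℂ) * pull (lin (Matrix.of w.1)) S (ev Φ w.2) I J *
    ((φ w.2 : ℂ) * cf Φ w.2 (HH u w.2) I J)

theorem gss_cont : Continuous (gss : (Fin N → Fin N → ℂ) → ℝ) := by
  unfold gss
  fun_prop

theorem gg_int {p q : ℕ} (hN : p + q + 1 = N) (hW6 : T_W6) (hIA : T_IA) (hTH : T_TH)
    (hD13 : T_D13) {D : ℕ} {Φ : Fin N → MvPolynomial (Fin N) ℂ} (hΦ : IsH D Φ)
    {S : Form (Fin N) p} (hS : ProjForm S) {φ : (Fin N → ℂ) → ℝ} (hφ : Hom0 φ)
    {u : Fin q → (Fin N → ℂ) → ℝ} (hu : ∀ j, Pot (u j)) (I J : Fin p → Fin N) :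
    Integrable (gg Φ S φ u I J) ((volume : Measure (Fin N → Fin N → ℂ)).prod
      ((volume : Measure (Fin N → ℂ)).restrict {z | 0 ≤ ell z ∧ ell z < 1})) := by
  have hN0 : 0 < N := by omega
  obtain ⟨-, C, hC⟩ := hIA N p S (by omega) hS
  have hpc : ContinuousOn (fun z : Fin N → ℂ => (φ z : ℂ) * cf Φ z (HH u z) I J) {0}ᶜ :=
    (Complex.continuous_ofReal.comp_continuousOn hφ.smooth.continuousOn).mul
      (cf_cont hW6 Φ hu I J)
  have hm2 : AEStronglyMeasurable (fun z : Fin N → ℂ => (φ z : ℂ) * cf Φ z (HH u z) I J)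
      ((volume : Measure (Fin N → ℂ)).restrict {z | 0 ≤ ell z ∧ ell z < 1}) := by
    have h1 := hpc.aestronglyMeasurable
      (μ := (volume : Measure (Fin N → ℂ)).restrict {z | 0 ≤ ell z ∧ ell z < 1})
      (isOpen_compl_singleton.measurableSet)
    have h2 : ((volume : Measure (Fin N → ℂ)).restrict {z | 0 ≤ ell z ∧ ell z < 1}).restrict
        ({0}ᶜ : Set (Fin N → ℂ)) =
        (volume : Measure (Fin N → ℂ)).restrict {z | 0 ≤ ell z ∧ ell z < 1} :=
      Measure.restrict_eq_self_of_ae_mem (ae_ne_zero hN0 _)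
    rwa [h2] at h1
  have hm : AEStronglyMeasurable (gg Φ S φ u I J)
      ((volume : Measure (Fin N → Fin N → ℂ)).prod
      ((volume : Measure (Fin N → ℂ)).restrict {z | 0 ≤ ell z ∧ ell z < 1})) := by
    unfold gg
    refine AEStronglyMeasurable.mul (AEStronglyMeasurable.mul ?_ ?_) ?_
    · exact (Complex.continuous_ofReal.comp (gss_cont.comp continuous_fst)).aestronglyMeasurable
    · exact meas_pull hN0 hTH hD13 hΦ hS I J _
    · exact hm2.comp_snd
  rw [integrable_prod_iff' hm]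
  have hy : ∀ z : Fin N → ℂ, z ≠ 0 → ev Φ z ≠ 0 := fun z hz h => hz (hΦ.nd z h)
  refine ⟨?_, ?_⟩
  · filter_upwards [ae_ne_zero hN0 _] with z hz
    exact (hC (ev Φ z) (hy z hz) I J).1.mul_const ((φ z : ℂ) * cf Φ z (HH u z) I J)
  · have hb : IntegrableOn (fun z : Fin N → ℂ =>
        C / nrm (ev Φ z) ^ (2 * p) * ‖(φ z : ℂ) * cf Φ z (HH u z) I J‖)
        {z | 0 ≤ ell z ∧ ell z < 1} := by
      refine shell_int hN0 (ContinuousOn.mul ?_ hpc.norm)
      have hn : Continuous (fun z : Fin N → ℂ => nrm (ev Φ z)) := by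
        have h1 : Continuous (nrm : (Fin N → ℂ) → ℝ) := by
          unfold nrm nsq
          fun_prop
        exact h1.comp (ev_cont Φ)
      refine continuousOn_const.div (hn.pow _).continuousOn fun z hz => ?_
      refine pow_ne_zero _ ?_
      obtain ⟨i, hi⟩ := Function.ne_iff.1 (hy z hz)
      have h3 : 0 < nsq (ev Φ z) := Finset.sum_pos' (fun _ _ => sq_nonneg _)
        ⟨i, Finset.mem_univ i, pow_pos (norm_pos_iff.2 hi) 2⟩
      exact (Real.sqrt_pos.2 h3).ne'
    refine hb.mono' ?_ ?_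
    · exact hm.norm.prod_swap.integral_prod_right'
    · filter_upwards [ae_ne_zero hN0 _] with z hz
      have h1 : ∀ X : Fin N → Fin N → ℂ, ‖gg Φ S φ u I J (X, z)‖ =
          ‖(gss X : ℂ) * pull (lin (Matrix.of X)) S (ev Φ z) I J‖ *
            ‖(φ z : ℂ) * cf Φ z (HH u z) I J‖ := fun X => norm_mul _ _
      simp only [h1]
      rw [integral_mul_const, Real.norm_eq_abs, abs_of_nonneg (by positivity)]
      exact mul_le_mul_of_nonneg_right (hC (ev Φ z) (hy z hz) I J).2 (norm_nonneg _)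

theorem pf_IG (hW6 : T_W6) (hIA : T_IA) (hD8 : T_D8) (hD13 : T_D13) (hTH : T_TH) : T_IG := by
  intro N p q D Φ S φ u hN hD hΦ hS hφ hu
  have hN0 : 0 < N := by omega
  have hy : ∀ z : Fin N → ℂ, z ≠ 0 → ev Φ z ≠ 0 := fun z hz h => hz (hΦ.nd z h)
  have hint : Integrable (fun w => ∑ I, ∑ J, gg Φ S φ u I J w)
      ((volume : Measure (Fin N → Fin N → ℂ)).prod
      ((volume : Measure (Fin N → ℂ)).restrict {z | 0 ≤ ell z ∧ ell z < 1})) :=
    integrable_finsetSum _ fun I _ => integrable_finsetSum _ fun J _ =>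
      gg_int hN hW6 hIA hTH hD13 hΦ hS hφ hu I J
  have hre : Integrable (fun w => (∑ I, ∑ J, gg Φ S φ u I J w).re)
      ((volume : Measure (Fin N → Fin N → ℂ)).prod
      ((volume : Measure (Fin N → ℂ)).restrict {z | 0 ≤ ell z ∧ ell z < 1})) := hint.re
  have hterm : ∀ (X : Fin N → Fin N → ℂ) (z : Fin N → ℂ),
      (∑ I, ∑ J, gg Φ S φ u I J (X, z)).re =
      gss X * (φ z * Q (pull (Pool.Agent.H92.EQ.cmp (lin (Matrix.of X)) Φ) S) u z) := by
    intro X z
    have h1 : ∑ I, ∑ J, gg Φ S φ u I J (X, z) = ((gss X * φ z : ℝ) : ℂ) *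
        ∑ I, ∑ J, pull (lin (Matrix.of X)) S (ev Φ z) I J * cf Φ z (HH u z) I J := by
      rw [Finset.mul_sum]
      refine Finset.sum_congr rfl fun I _ => ?_
      rw [Finset.mul_sum]
      refine Finset.sum_congr rfl fun J _ => ?_
      unfold gg
      push_cast
      ring
    rw [h1, Complex.re_ofReal_mul, ← mix_pull, ← (hD8 N p (lin (Matrix.of X)) Φ S z).2.2,
      mul_assoc]
    rfl
  have hleft : ∀ X : Fin N → Fin N → ℂ, gss X * am φ Φ S u (Matrix.of X) =
      ∫ z in {z : Fin N → ℂ | 0 ≤ ell z ∧ ell z < 1},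
        (∑ I, ∑ J, gg Φ S φ u I J (X, z)).re := by
    intro X
    simp only [hterm]
    rw [integral_const_mul]
    rfl
  simp only [hleft]
  rw [integral_integral_swap (f := fun X z => (∑ I, ∑ J, gg Φ S φ u I J (X, z)).re) hre]
  unfold pair Iint
  refine integral_congr_ae ?_
  filter_upwards [ae_ne_zero hN0 _] with z hz
  have hi : ∀ I J, Integrable fun X : Fin N → Fin N → ℂ => gg Φ S φ u I J (X, z) := by
    intro I J
    obtain ⟨-, C, hC⟩ := hIA N p S (by omega) hS
    exact (hC (ev Φ z) (hy z hz) I J).1.mul_const ((φ z : ℂ) * cf Φ z (HH u z) I J)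
  have h2 : ∫ X : Fin N → Fin N → ℂ, (∑ I, ∑ J, gg Φ S φ u I J (X, z)).re =
      (∫ X : Fin N → Fin N → ℂ, ∑ I, ∑ J, gg Φ S φ u I J (X, z)).re :=
    Complex.reCLM.integral_comp_comm
      (integrable_finsetSum _ fun I _ => integrable_finsetSum _ fun J _ => hi I J)
  have h3 : ∫ X : Fin N → Fin N → ℂ, ∑ I, ∑ J, gg Φ S φ u I J (X, z) =
      ∑ I, ∑ J, av S (ev Φ z) I J * ((φ z : ℂ) * cf Φ z (HH u z) I J) := by
    rw [integral_finsetSum _ fun I _ => integrable_finsetSum _ fun J _ => hi I J]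
    refine Finset.sum_congr rfl fun I _ => ?_
    rw [integral_finsetSum _ fun J _ => hi I J]
    refine Finset.sum_congr rfl fun J _ => ?_
    unfold gg av
    exact integral_mul_const ((φ z : ℂ) * cf Φ z (HH u z) I J)
      (fun X : Fin N → Fin N → ℂ => (gss X : ℂ) * pull (lin (Matrix.of X)) S (ev Φ z) I J)
  have h4 : ∑ I, ∑ J, av S (ev Φ z) I J * ((φ z : ℂ) * cf Φ z (HH u z) I J) =
      ((φ z : ℝ) : ℂ) * mixD (pull Φ (av S) z) (HH u z) := by
    rw [mix_pull, Finset.mul_sum]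
    refine Finset.sum_congr rfl fun I _ => ?_
    rw [Finset.mul_sum]
    refine Finset.sum_congr rfl fun J _ => ?_
    ring
  rw [h2, h3, h4, Complex.re_ofReal_mul]
  rfl

end Pool.Agent.H14.EQ
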