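import Pool.Agent.H92.EQ.TL
import Pool.Agent.H14.EQ.TZ

/-!
# Board MP_75a732_an, row IZ
-/

set_option autoImplicit false

namespace Pool.Agent.H14.EQ

open scoped BigOperators ComplexConjugate ContDiff ComplexOrder
open MeasureTheory
open Pool.Agent.H92.EQ

theorem pf_IZ (hIF : T_IF) (hIG : T_IG) (hIA : T_IA) (hTH : T_TH) (hTN : T_TN) (hD7 : T_D7)
    (hD5 : T_D5) (hD13 : T_D13) (hA1 : T_A1) (hS5 : T_S5) (hL1 : T_L1) (hL3 : T_L3)
    (hP5 : T_P5) : T_IZ := by
  intro N p q D Φ hD hΦ φ u hφ hu S hS hmass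
  by_cases hN : p + q + 1 = N
  swap
  · have h1 : ∀ A, am φ Φ S u A = 0 := fun A => pair_zero hN _ _ _
    rw [pair_zero hN]
    simp [h1]
  have hN0 : 0 < N := by omega
  have hpN : p < N := by omega
  obtain ⟨c, hc⟩ := hIF N p S hpN hS
  have hLu : ∀ v : (Fin N → ℂ) → ℝ, Pot v → LH 1 v := fun v hv =>
    (hL1 N 1 1 1 1 v v).2.2.1 hv
  have hom := (hD7 N p).1
  -- the mean for every map
  have key : ∀ (D : ℕ) (Φ : Fin N → MvPolynomial (Fin N) ℂ) (φ : (Fin N → ℂ) → ℝ)
      (u : Fin q → (Fin N → ℂ) → ℝ), 1 ≤ D → IsH D Φ → Hom0 φ → (∀ j, Pot (u j)) →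
      ∫ X : Fin N → Fin N → ℂ, gss X * am φ Φ S u (Matrix.of X) =
        c.re * pair φ (pull Φ (om N p)) u := by
    intro D Φ φ u hD hΦ hφ hu
    rw [hIG N p q D Φ S φ u hN hD hΦ hS hφ hu]
    have hQ : ∀ z : Fin N → ℂ, z ≠ 0 → Q (pull Φ (av S)) u z =
        c.re * Q (pull Φ (om N p)) u z := by
      intro z hz
      have h1 : pull Φ (av S) z = fun I J => c * pull Φ (om N p) z I J := by
        funext I J
        unfold pull
        rw [Finset.mul_sum]
        refine Finset.sum_congr rfl fun I' _ => ?_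
        rw [Finset.mul_sum]
        refine Finset.sum_congr rfl fun J' _ => ?_
        rw [hc (ev Φ z) (fun h => hz (hΦ.nd z h))]
        ring
      have h2 := (hS5 N p q (pull Φ (om N p)) u (fun _ => 1) hN (hD5 N p D Φ _ hD hΦ hom)
        (fun j => hLu _ (hu j))).2.2 z hz
      have h3 : mixD (pull Φ (av S) z) (Fin.snoc (α := fun _ => Matrix (Fin N) (Fin N) ℂ)
          (fun j => hessR (u j) z) (Rad z)) = c * (Q (pull Φ (om N p)) u z : ℂ) := by
        rw [h1, h2]
        exact (hA1 (Fin N) p (q + 1) (pull Φ (om N p) z) (pull Φ (om N p) z) _ 0 0 0 c).2.2.2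
      show (mixD (pull Φ (av S) z) (Fin.snoc (α := fun _ => Matrix (Fin N) (Fin N) ℂ)
          (fun j => hessR (u j) z) (Rad z))).re = _
      rw [h3, Complex.mul_re, Complex.ofReal_re, Complex.ofReal_im, mul_zero, sub_zero]
    unfold pair Iint
    rw [← integral_const_mul]
    have hne : Nonempty (Fin N) := ⟨⟨0, hN0⟩⟩
    refine integral_congr_ae ?_
    have hae : ∀ᵐ z : Fin N → ℂ, z ≠ 0 := by
      rw [ae_iff]
      simp
    filter_upwards [ae_restrict_of_ae hae] with z hz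
    rw [hQ z hz]
    ring
  -- the constant
  have hone : Hom0 (fun _ : Fin N → ℂ => (1 : ℝ)) := ⟨contDiffOn_const, fun _ _ _ _ => rfl⟩
  have hell : ∀ _ : Fin q, Pot (ell : (Fin N → ℂ) → ℝ) := fun _ => (hL3 N).1
  have hlin : IsH 1 (lin (1 : Matrix (Fin N) (Fin N) ℂ)) :=
    (hD13 N 1 1 0).2.2.1 (by simp)
  have h1 := key 1 (lin 1) (fun _ => 1) (fun _ => ell) le_rfl hlin hone hell
  have h2 : pair (fun _ => 1) (pull (lin (1 : Matrix (Fin N) (Fin N) ℂ)) (om N p))
      (fun _ : Fin q => ell) = mass q (om N p) := by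
    have h3 := (hP5 N p q 1 (om N p) hN hom).1 (lin 1) le_rfl hlin
    rw [Nat.cast_one, one_pow, one_mul] at h3
    exact h3
  have h4 : ∫ X : Fin N → Fin N → ℂ, gss X * am (fun _ => 1)
      (lin (1 : Matrix (Fin N) (Fin N) ℂ)) S (fun _ : Fin q => ell) (Matrix.of X) =
      mass q S := by
    have h5 := (hTN N p q 1 (lin 1) S (fun _ => 1) (fun _ : Fin q => ell) 1 hN le_rfl hlin hS
      hone hell (fun z _ => by simp)).2.2
    have h6 : ∫ X : Fin N → Fin N → ℂ, gss X * am (fun _ => 1)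
        (lin (1 : Matrix (Fin N) (Fin N) ℂ)) S (fun _ : Fin q => ell) (Matrix.of X) =
        ∫ X : Fin N → Fin N → ℂ, gss X * mass q S := by
      refine integral_congr_ae ?_
      filter_upwards [(hTH N ⟨0, hN0⟩ ⟨0, hN0⟩).1] with X hX
      have h7 := (h5 (Matrix.of X) hX).2
      rw [Nat.cast_one, one_pow, one_mul] at h7
      show gss X * mass q (pull (Pool.Agent.H92.EQ.cmp (lin (Matrix.of X)) (lin 1)) S) = _
      rw [h7]
    rw [h6, integral_mul_const, (hIA N p S hpN hS).1, one_mul]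
  rw [h2, h4, hmass] at h1
  have h8 := ((hD7 N p).2 q hN).1
  have h9 : c.re = 1 := by
    have h10 : (c.re - 1) * mass q (om N p) = 0 := by linarith
    rcases mul_eq_zero.1 h10 with h | h
    · linarith
    · exact absurd h h8.ne'
  rw [key D Φ φ u hD hΦ hφ hu, h9, one_mul]

end Pool.Agent.H14.EQ
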