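import Pool.Agent.H92.EQ.TK2
import Pool.Agent.H80.EQ.KF
import Pool.Agent.H80.EQ.KI

/-!
# Board MP_75a732_an, rows KF2, KI2, KZ2 (after helper80 and helper72)
-/

set_option autoImplicit false

namespace Pool.Agent.H14.EQ

open scoped BigOperators ComplexConjugate ContDiff ComplexOrder
open MeasureTheory
open Pool.Agent.H92.EQ Pool.Agent.H80.EQ

/-- Row KF2. -/
theorem pf_KF2 (hKA : T_KA) (hP1 : T_P1) (hP3 : T_P3) (hP5 : T_P5) (hP7 : T_P7) (hD12 : T_D12)
    (hL3 : T_L3) (hD7 : T_D7) : T_KF2 := by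
  intro N d p q F K hd hN hF hC η hη
  obtain ⟨hG, -, B, hB0, -, hB⟩ := hKA N d F hd hF
  have hell : Pot (ell : (Fin N → ℂ) → ℝ) := (hL3 N).1
  have hd1 : 1 ≤ d := by omega
  have hom : ProjForm (om N p) := (hD7 N p).1
  have hc0 : 0 ≤ mass q (om N p) := (hP5 N p q d (om N p) hN hom).2.2
  set c0 := mass q (om N p) with hc0def
  obtain ⟨l, hl⟩ := kf_choose hd (show (0 : ℝ) ≤ 2 * ((2 * q + 1) * (B * c0)) by positivity)
    (half_pos hη)
  -- slots
  have hsl : ∀ (n j : ℕ) (k : Fin q),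
      Pot ((fun k : Fin q => if (k : ℕ) < j then Gn F d n else ell) k) := by
    intro n j k
    by_cases h : (k : ℕ) < j
    · simp only [h, if_true]
      exact hG n
    · simp only [h, if_false]
      exact hell
  have hconv : ∀ j : ℕ, ∃ n0 : ℕ, ∀ m ≥ n0, ∀ S : Form (Fin N) p, ProjForm S → InK K S →
      mass q S = mass q (om N p) →
      |pair (fun z => Gn F d l z - ell z) (Sn F d m S)
          (fun k : Fin q => if (k : ℕ) < j then Gn F d l else ell) -
        pair (fun z => Gn F d l z - ell z) (Sn F d m (om N p))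
          (fun k : Fin q => if (k : ℕ) < j then Gn F d l else ell)| < η / 8 := fun j =>
    hC q hN _ _ (kf_Hom0 (hG l) hell) (hsl l j) (η / 8) (by positivity)
  choose n0 hn0 using hconv
  refine ⟨max l ((Finset.range (q + 1)).sup n0), ?_⟩
  intro m hm n hn j R R' hR hR' hKR hKR' hmR hmR'
  have hml : l ≤ m := (le_max_left _ _).trans hm
  have hln : l ≤ n := hml.trans hn
  -- reduction to j ≤ q
  have hj : (fun k : Fin q => if (k : ℕ) < j then Gn F d n else (ell : (Fin N → ℂ) → ℝ)) =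
      fun k : Fin q => if (k : ℕ) < min j q then Gn F d n else ell := by
    funext k
    have hk := k.isLt
    by_cases h : (k : ℕ) < j
    · rw [if_pos h, if_pos (lt_min h hk)]
    · rw [if_neg h, if_neg (fun h' => h (lt_of_lt_of_le h' (min_le_left _ _)))]
  rw [hj]
  set i := min j q with hi
  have hi' : n0 i ≤ m := by
    have h1 : n0 i ≤ (Finset.range (q + 1)).sup n0 :=
      Finset.le_sup (f := n0) (Finset.mem_range.mpr (Nat.lt_succ_of_le (min_le_right _ _)))
    exact h1.trans ((le_max_right _ _).trans hm)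
  -- error for one form
  have err : ∀ S : Form (Fin N) p, ProjForm S → mass q S = c0 →
      |pair (fun z => Gn F d n z - ell z) (Sn F d m S)
          (fun k : Fin q => if (k : ℕ) < i then Gn F d n else ell) -
        pair (fun z => Gn F d l z - ell z) (Sn F d m S)
          (fun k : Fin q => if (k : ℕ) < i then Gn F d l else ell)| ≤
        (2 * q + 1) * (B * c0) * (1 / (d : ℝ) ^ l) := by
    intro S hS hmS
    have hT : ProjForm (Sn F d m S) := (hD12 N d F hd1 hF 0 m).2.2.2.2 p S hS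
    have hmT : mass q (Sn F d m S) = c0 := by
      rw [(hP5 N p q d S hN hS).2.1 F m hd1 hF, hmS]
    have a1 := kf_fun hP1 hP3 hN hT (hG n) (hG l) hell (hsl n i) (b := B / (d : ℝ) ^ l)
      (fun z hz => hB l n z hln hz)
    have a2 := kf_slots hP7 hN hT (hG l) hell (hsl n i) (hsl l i) (b := B / (d : ℝ) ^ l) (by
      intro k z hz
      by_cases h : (k : ℕ) < i
      · simp only [h, if_true]
        exact hB l n z hln hz
      · simp only [h, if_false, sub_self, abs_zero]
        positivity)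
    rw [hmT] at a1 a2
    have t := abs_sub_le (pair (fun z => Gn F d n z - ell z) (Sn F d m S)
          (fun k : Fin q => if (k : ℕ) < i then Gn F d n else ell))
        (pair (fun z => Gn F d l z - ell z) (Sn F d m S)
          (fun k : Fin q => if (k : ℕ) < i then Gn F d n else ell))
        (pair (fun z => Gn F d l z - ell z) (Sn F d m S)
          (fun k : Fin q => if (k : ℕ) < i then Gn F d l else ell))
    refine t.trans ((add_le_add a1 a2).trans (le_of_eq ?_))
    ring
  have e1 := err R hR hmR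
  have e2 := err R' hR' hmR'
  have e3 := hn0 i m hi' R hR hKR hmR
  have e4 := hn0 i m hi' R' hR' hKR' hmR'
  have e5 : (2 * q + 1) * (B * c0) * (1 / (d : ℝ) ^ l) +
      (2 * q + 1) * (B * c0) * (1 / (d : ℝ) ^ l) ≤ η / 2 := by
    refine le_trans (le_of_eq ?_) hl
    ring
  rw [abs_le] at e1 e2 ⊢
  rw [abs_lt] at e3 e4
  constructor
  · linarith [e1.1, e2.2, e3.1, e4.2]
  · linarith [e1.2, e2.1, e3.2, e4.1]

/-- Absorbing all the potentials. -/
theorem ki_absorb2 (hKH : T_KH) (hKG : T_KG2) {N d i : ℕ} {K : Set (Fin N → ℂ)}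
    {F : Fin N → MvPolynomial (Fin N) ℂ} (hd : 2 ≤ d)
    (hF : IsH d F) (hG : ∀ n, Pot (Gn F d n)) (hell : Pot (ell : (Fin N → ℂ) → ℝ))
    {f : (Fin N → ℂ) → ℝ} (hf : Hom0 f) :
    ∀ (q p : ℕ) (S : Form (Fin N) p), p + q + 1 = N → ProjForm S → InK K S →
      ∃ (p' : ℕ) (σ : Form (Fin N) p'), p' + 1 = N ∧ ProjForm σ ∧ InK K σ ∧ mass 0 σ = mass q S ∧
        pair f (Sn F d i S) (fun _ : Fin q => Gn F d i) =
          pair f (Sn F d i σ) (fun _ : Fin 0 => ell) := by
  intro q
  induction q with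
  | zero =>
    intro p S hN hS hKS
    refine ⟨p, S, hN, hS, hKS, rfl, ?_⟩
    congr 1
    funext j
    exact j.elim0
  | succ q ih =>
    intro p S hN hS hKS
    have hKS' : InK K (fun z => wedge (Sn F d 0 S z) (hessR ell z)) := by
      have h1 := (hKG N d p 0 F K S (fun z => hessR ell z) (by omega) hF hKS).2.1
      have h2 : ev (iter F 0) ⁻¹' K = K := by
        ext z
        have h3 : ev (iter F 0) z = z := by
          funext i
          exact MvPolynomial.eval_X i
        rw [Set.mem_preimage, h3]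
      rw [h2] at h1
      exact (hKG N d p 0 F K (Sn F d 0 S) (fun z => hessR ell z) (by omega) hF h1).1
    obtain ⟨k1, k2, k3⟩ := hKH N d p q i 0 F S ell f (fun _ : Fin q => Gn F d i) hd
      (by omega) hF hS hell (fun _ => hG i) hf
    obtain ⟨p', σ, a1, a2, aK, a3, a4⟩ := ih (p + 1)
      (fun z => wedge (Sn F d 0 S z) (hessR ell z)) (by omega) k1 hKS'
    refine ⟨p', σ, a1, a2, aK, a3.trans k2, ?_⟩
    rw [← a4, ← k3, Nat.zero_add]
    congr 1
    funext j
    refine Fin.cases ?_ (fun j => ?_) j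
    · rfl
    · rfl

/-- Row KI2. -/
theorem pf_KI2 (hKG : T_KG2) (hG4 : T_G4) (hKA : T_KA) (hKH : T_KH) (hD12 : T_D12)
    (hP1 : T_P1) (hP3 : T_P3)
    (hP5 : T_P5) (hD7 : T_D7) (hL3 : T_L3) (hL6 : T_L6) : T_KI2 := by
  intro N d p q m i F K S f h r a b hd hN hF hS hKS hmS hf hh ha hb hHit hf1 hf2
  obtain ⟨hG, hGr, -⟩ := hKA N d F hd hF
  have hell : Pot (ell : (Fin N → ℂ) → ℝ) := (hL3 N).1
  have hd1 : 1 ≤ d := by omega
  have hd0 : (0 : ℝ) < d := by exact_mod_cast hd1
  have hN0 : 0 < N := by omega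
  have hS1 : ProjForm (Sn F d i S) := (hD12 N d F hd1 hF 0 i).2.2.2.2 p S hS
  have hΦ : IsH (d ^ m) (iter F m) := (hD12 N d F hd1 hF 0 m).1
  -- the degree formula
  obtain ⟨Bf, hBf0, hBf⟩ := (hL6 N).1 f hf.smooth.continuousOn (fun t z ht hz =>
    hf.hom (t : ℂ) z (by exact_mod_cast ht.ne') hz)
  have hB : ∀ z, |f z| ≤ max Bf |f 0| := by
    intro z
    by_cases hz : z = 0
    · rw [hz]
      exact le_max_right _ _
    · exact (hBf z hz).trans (le_max_left _ _)
  have g4 := hG4 N p q (d ^ m) (iter F m) (Sn F d i S) (fun _ => Gn F d i) (fun _ => 1) f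
    (max Bf |f 0|) hN (Nat.one_le_pow _ _ (by omega)) hΦ hS1 (fun _ => ki_LH (hG i))
    (ki_meas hf.smooth.continuousOn) hB hf.hom
  have e1 : pair (fun z => f (ev (iter F m) z)) (Sn F d (i + m) S)
      (fun _ : Fin q => Gn F d (i + m)) =
      ((1 / (d : ℝ) ^ m) ^ q * ((d : ℝ) ^ (p * m))⁻¹) *
        pair (fun z => f (ev (iter F m) z)) (pull (iter F m) (Sn F d i S))
          (fun (_ : Fin q) z => Gn F d i (ev (iter F m) z)) := by
    refine ki_congr hN0 _ ?_
    intro z hz
    have q1 : Q (Sn F d (i + m) S) (fun _ : Fin q => Gn F d (i + m)) z =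
        Q (Sn F d (i + m) S)
          (fun (_ : Fin q) z => (1 / (d : ℝ) ^ m) * Gn F d i (ev (iter F m) z)) z := by
      refine ki_Q_congr _ ?_ z hz
      intro _ w hw
      rw [add_comm i m]
      exact hGr m i w hw
    have q2 := Pool.Agent.H84.EQ.Q_smul (Sn F d (i + m) S) (1 / (d : ℝ) ^ m)
      (fun (_ : Fin q) z => Gn F d i (ev (iter F m) z)) z
    have q3 : Q (Sn F d (i + m) S) (fun (_ : Fin q) z => Gn F d i (ev (iter F m) z)) z =
        ((d : ℝ) ^ (p * m))⁻¹ * Q (pull (iter F m) (Sn F d i S))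
          (fun (_ : Fin q) z => Gn F d i (ev (iter F m) z)) z := by
      refine ki_Q_S _ z _ ?_
      intro I J
      rw [(hD12 N d F hd1 hF i m).2.2.2.1 p S z]
      unfold Sn
      push_cast
      rfl
    rw [q1, q2, q3]
    ring
  have e2 : ((1 / (d : ℝ) ^ m) ^ q * ((d : ℝ) ^ (p * m))⁻¹) *
      (((d ^ m : ℕ) : ℝ) ^ (N - 1)) = 1 := by
    have hN1 : N - 1 = p + q := by omega
    rw [hN1]
    push_cast
    have h1 : ((d : ℝ) ^ m) ≠ 0 := by positivity
    rw [one_div, mul_comm p m, pow_mul (d : ℝ) m p, inv_pow, pow_add]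
    field_simp
  have e3 : pair (fun z => f (ev (iter F m) z)) (Sn F d (i + m) S)
      (fun _ : Fin q => Gn F d (i + m)) = pair f (Sn F d i S) (fun _ : Fin q => Gn F d i) := by
    rw [e1, g4, ← mul_assoc, e2, one_mul]
  obtain ⟨p', σ, a1, a2, aK, a3, a4⟩ :=
    ki_absorb2 hKH hKG (i := i) hd hF hG hell hf q p S hN hS hKS
  rw [e3, a4]
  have hpp : p' = p + q := by omega
  subst hpp
  have hm0 : mass q (om N p) = mass 0 (om N (p + q)) := ((hD7 N p).2 q hN).2
  have hσ1 : ProjForm (Sn F d i σ) := (hD12 N d F hd1 hF 0 i).2.2.2.2 _ σ a2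
  have hmσ : mass 0 σ = mass 0 (om N (p + q)) := by rw [a3, hmS, hm0]
  have hhit := hHit (p + q) a1 σ a2 aK hmσ
  have hN' : (p + q) + 0 + 1 = N := by omega
  have hmσ' : mass 0 (Sn F d i σ) = mass 0 (om N (p + q)) := by
    rw [(hP5 N (p + q) 0 d σ hN' a2).2.1 F i hd1 hF, hmσ]
  have hLH : ∀ j : Fin 0, LH ((fun _ : Fin 0 => (1 : ℝ)) j)
      ((fun _ : Fin 0 => (ell : (Fin N → ℂ) → ℝ)) j) := fun j => j.elim0
  have hPot : ∀ j : Fin 0, Pot ((fun _ : Fin 0 => (ell : (Fin N → ℂ) → ℝ)) j) := fun j => j.elim0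
  obtain ⟨i1, i2⟩ := hP1 N (p + q) 0 (Sn F d i σ) (fun _ => ell) (fun _ => 1) hN' hσ1 hLH
  have hQ := (hP3 N (p + q) 0 (Sn F d i σ) (fun _ => ell) hN' hσ1 hPot).1
  have ind1 : IntegrableOn (fun z => Set.indicator (Cr F d r) (fun _ => (1 : ℝ)) z *
      Q (Sn F d i σ) (fun _ : Fin 0 => ell) z) {z : Fin N → ℂ | 0 ≤ ell z ∧ ell z < 1} := by
    refine i1 (Set.indicator (Cr F d r) (fun _ => (1 : ℝ))) 1
      (measurable_const.indicator (ki_Cr_meas F d r)) ?_
    intro z _
    by_cases hz : z ∈ Cr F d r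
    · rw [Set.indicator_of_mem hz, abs_one]
    · rw [Set.indicator_of_notMem hz, abs_zero]
      exact zero_le_one
  have ind2 : IntegrableOn (fun z => (1 : ℝ) *
      Q (Sn F d i σ) (fun _ : Fin 0 => ell) z) {z : Fin N → ℂ | 0 ≤ ell z ∧ ell z < 1} :=
    i1 (fun _ => 1) 1 measurable_const (fun z _ => by rw [abs_one])
  have ind3 := i2 f hf.smooth.continuousOn
  have le1 : pair f (Sn F d i σ) (fun _ : Fin 0 => ell) ≤
      a * pair (Set.indicator (Cr F d r) (fun _ => 1)) (Sn F d i σ) (fun _ : Fin 0 => ell) +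
        b * mass 0 (Sn F d i σ) := by
    unfold mass pair Iint
    rw [← integral_const_mul, ← integral_const_mul,
      ← integral_add (ind1.const_mul a) (ind2.const_mul b)]
    refine integral_mono_ae ind3 ((ind1.const_mul a).add (ind2.const_mul b)) ?_
    filter_upwards [ki_ne hN0 {z : Fin N → ℂ | 0 ≤ ell z ∧ ell z < 1}] with z hz
    have hq := hQ z hz
    by_cases hc : z ∈ Cr F d r
    · simp only [Set.indicator_of_mem hc]
      have := hf1 z hz
      nlinarith
    · simp only [Set.indicator_of_notMem hc]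
      have := hf2 z hz hc
      nlinarith
  rw [hmσ'] at le1
  rw [hm0]
  have le2 := mul_le_mul_of_nonneg_left hhit ha
  linarith

/-- Row KZ2. -/
theorem pf_KZ2 (hKN : T_KN2) (hKO : T_KO2) (hTZ : T_TZ) (hIZ : T_IZ) (hLE : T_LE) :
    T_KZ2 := by
  intro N d p F 𝒦 hd hF hst hP
  have key : ∀ k p, N ≤ p + k → ∀ K ∈ 𝒦, ConvK F d p K := by
    intro k
    induction k with
    | zero =>
      intro p hp K hK q hq
      omega
    | succ k ih =>
      intro p hp K hK
      by_cases h : N ≤ p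
      · intro q hq
        omega
      · exact hKO N d p F K hd (by omega) hF
          (hKN N d p F 𝒦 K hd (by omega) hF hst hK (ih (p + 1) (by omega)) (hP K hK)
            (fun q => hLE N p q))
          (fun q => hTZ N p q) (fun q => hIZ N p q)
  exact key N p (by omega)

end Pool.Agent.H14.EQ
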