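import Pool.Agent.H71.EQ.Targets

/-!
LPR: large primes.
-/

set_option autoImplicit false

open Pool.Agent.H38.AE.Statement Pool.Agent.H38.AT MeasureTheory Filter
open scoped Topology

namespace Pool.Agent.H14.EQ

open Pool.Agent.H71.EQ

/-- the nonzero multiples of `q` in `[-R, R]` -/
noncomputable def Mu (q : ℕ) (R : ℝ) : Finset ℤ :=
  (Finset.Icc (-⌊R⌋) ⌊R⌋).filter fun x => x ≠ 0 ∧ (q : ℤ) ∣ x

theorem mem_Mu {q : ℕ} {R : ℝ} {x : ℤ} : x ∈ Mu q R ↔ |(x : ℝ)| ≤ R ∧ x ≠ 0 ∧ (q : ℤ) ∣ x := by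
  unfold Mu
  rw [Finset.mem_filter, Finset.mem_Icc]
  refine and_congr_left fun _ => ?_
  rw [abs_le, Int.le_floor, neg_le, Int.le_floor, neg_le (a := R)]
  push_cast
  rfl

theorem mu_card (q : ℕ) (hq : 1 ≤ q) (R : ℝ) (hR : 0 ≤ R) : ((Mu q R).card : ℝ) ≤ 2 * R / q := by
  have hq0 : (0 : ℝ) < q := by exact_mod_cast hq
  obtain ⟨K, hK⟩ : ∃ K : ℤ, K = ⌊R / q⌋ := ⟨_, rfl⟩
  have hK0 : 0 ≤ K := by
    rw [hK]
    exact Int.floor_nonneg.2 (by positivity)
  have hKR : (K : ℝ) ≤ R / q := by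
    rw [hK]
    exact Int.floor_le _
  have h1 : Mu q R ⊆ ((Finset.Icc (-K) K).erase 0).image fun t => (q : ℤ) * t := by
    intro x hx
    obtain ⟨h2, h3, t, rfl⟩ := mem_Mu.1 hx
    refine Finset.mem_image.2 ⟨t, Finset.mem_erase.2 ⟨fun h => h3 (by rw [h, mul_zero]), ?_⟩, rfl⟩
    rw [Finset.mem_Icc, ← abs_le, hK, Int.le_floor, le_div_iff₀ hq0]
    push_cast at h2 ⊢
    rw [abs_mul, abs_of_pos hq0] at h2
    linarith
  have h2 : (Mu q R).card ≤ ((Finset.Icc (-K) K).erase 0).card :=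
    (Finset.card_le_card h1).trans Finset.card_image_le
  rw [Finset.card_erase_of_mem (Finset.mem_Icc.2 ⟨by omega, hK0⟩), Int.card_Icc] at h2
  have h3 : ((Mu q R).card : ℝ) ≤ 2 * K := by
    have h4 : ((Mu q R).card : ℤ) ≤ 2 * K := by omega
    exact_mod_cast h4
  calc ((Mu q R).card : ℝ) ≤ 2 * K := h3
    _ ≤ 2 * (R / q) := by linarith
    _ = 2 * R / q := by ring

theorem ext_sum {k : ℕ} (v : Fin k → ℤ) : ∑ i, ext v i = 0 := by
  rw [Fin.sum_univ_castSucc]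
  unfold ext
  simp

theorem ext_inj {k : ℕ} {v w : Fin k → ℤ} (h : ext v = ext w) : v = w := by
  funext i
  have := congrFun h i.castSucc
  unfold ext at this
  simpa using this

/-- all entries but one determine the vector -/
theorem sa_inj {k : ℕ} (c : Fin (k + 1)) :
    Function.Injective fun (v : Fin k → ℤ) (i : Fin k) => ext v (c.succAbove i) := by
  intro v w h
  apply ext_inj
  have h1 : ∀ i, ext v (c.succAbove i) = ext w (c.succAbove i) := fun i => congrFun h i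
  have h2 := ext_sum v
  have h3 := ext_sum w
  rw [Fin.sum_univ_succAbove _ c] at h2 h3
  rw [Finset.sum_congr rfl fun i _ => h1 i] at h2
  funext j
  rcases Fin.eq_self_or_eq_succAbove c j with rfl | ⟨i, rfl⟩
  · linarith
  · exact h1 i

/-- one event -/
def Qs (k : ℕ) (R : ℝ) (p : ℕ) (t : Fin (k + 1) × Fin k × Fin k) : Set (Fin k → ℤ) :=
  {v | (∀ l, ext v (t.1.succAbove l) ≠ 0 ∧ |(ext v (t.1.succAbove l) : ℝ)| ≤ R) ∧
    (if t.2.1 = t.2.2 then ((p ^ 2 : ℕ) : ℤ) ∣ ext v (t.1.succAbove t.2.1)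
      else (p : ℤ) ∣ ext v (t.1.succAbove t.2.1) ∧ (p : ℤ) ∣ ext v (t.1.succAbove t.2.2))}

theorem qs_card (k : ℕ) (R : ℝ) (hR : 0 ≤ R) (p : ℕ) (hp : 1 ≤ p)
    (t : Fin (k + 1) × Fin k × Fin k) : (Qs k R p t).Finite ∧
      ((Qs k R p t).ncard : ℝ) ≤ (2 * R) ^ k / (p : ℝ) ^ 2 := by
  classical
  obtain ⟨c, i, j⟩ := t
  obtain ⟨q, hq⟩ : ∃ q : Fin k → ℕ, q = fun l => if i = j then (if l = i then p ^ 2 else 1)
      else (if l = i ∨ l = j then p else 1) := ⟨_, rfl⟩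
  have hq1 : ∀ l, 1 ≤ q l := by
    intro l
    rw [hq]
    dsimp only
    split_ifs
    · exact Nat.one_le_pow _ _ hp
    · exact le_rfl
    · exact hp
    · exact le_rfl
  have hmap : ∀ v ∈ Qs k R p (c, i, j), (fun l => ext v (c.succAbove l)) ∈
      ((Fintype.piFinset fun l => Mu (q l) R : Finset (Fin k → ℤ)) : Set (Fin k → ℤ)) := by
    intro v hv
    obtain ⟨h1, h2⟩ := hv
    rw [Finset.mem_coe, Fintype.mem_piFinset]
    intro l
    refine mem_Mu.2 ⟨(h1 l).2, (h1 l).1, ?_⟩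
    rw [hq]
    dsimp only
    by_cases hij : i = j
    · rw [if_pos hij] at h2
      rw [if_pos hij]
      by_cases hl : l = i
      · rw [if_pos hl, hl]
        exact h2
      · rw [if_neg hl]
        simp
    · rw [if_neg hij] at h2
      rw [if_neg hij]
      by_cases hl : l = i ∨ l = j
      · rw [if_pos hl]
        rcases hl with rfl | rfl
        · exact h2.1
        · exact h2.2
      · rw [if_neg hl]
        simp
  have hfin : (Qs k R p (c, i, j)).Finite :=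
    Set.Finite.of_injOn hmap (sa_inj c).injOn (Finset.finite_toSet _)
  refine ⟨hfin, ?_⟩
  have h1 : (Qs k R p (c, i, j)).ncard ≤ (Fintype.piFinset fun l => Mu (q l) R).card := by
    rw [← Set.ncard_coe_finset]
    exact Set.ncard_le_ncard_of_injOn _ hmap (sa_inj c).injOn (Finset.finite_toSet _)
  rw [Fintype.card_piFinset] at h1
  have hp0 : (0 : ℝ) < p := by exact_mod_cast hp
  calc ((Qs k R p (c, i, j)).ncard : ℝ) ≤ ((∏ l, (Mu (q l) R).card : ℕ) : ℝ) := by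
        exact_mod_cast h1
    _ = ∏ l, ((Mu (q l) R).card : ℝ) := by push_cast; rfl
    _ ≤ ∏ l, (2 * R / (q l : ℝ)) := Finset.prod_le_prod (fun _ _ => Nat.cast_nonneg _)
        fun l _ => mu_card (q l) (hq1 l) R hR
    _ = (2 * R) ^ k / ∏ l, (q l : ℝ) := by
        rw [Finset.prod_div_distrib, Finset.prod_const, Finset.card_univ, Fintype.card_fin]
    _ = (2 * R) ^ k / (p : ℝ) ^ 2 := by
        congr 1
        rw [hq]
        by_cases hij : i = j
        · simp only [if_pos hij]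
          rw [Finset.prod_eq_single i]
          · simp
          · intro l _ hl
            simp [hl]
          · intro h
            exact absurd (Finset.mem_univ _) h
        · simp only [if_neg hij]
          rw [← Finset.prod_subset (Finset.subset_univ {i, j}), Finset.prod_pair hij]
          · simp
            ring
          · intro l _ hl
            rw [Finset.mem_insert, Finset.mem_singleton] at hl
            rw [if_neg hl]
            simp

theorem third {k : ℕ} (hk : 2 ≤ k) (a b : Fin (k + 1)) : ∃ c, c ≠ a ∧ c ≠ b := by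
  classical
  have h1 : ({a, b} : Finset (Fin (k + 1))).card < (Finset.univ : Finset (Fin (k + 1))).card := by
    rw [Finset.card_univ, Fintype.card_fin]
    have := Finset.card_le_two (a := a) (b := b)
    omega
  obtain ⟨c, -, hc⟩ := Finset.exists_mem_notMem_of_card_lt_card h1
  rw [Finset.mem_insert, Finset.mem_singleton, not_or] at hc
  exact ⟨c, hc.1, hc.2⟩

theorem pf_LPR : T_LPR := by
  classical
  intro k hk
  refine ⟨((k : ℝ) + 1) * k * k * 2 ^ k, by positivity, ?_⟩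
  intro z R hz hR
  have hR0 : 0 ≤ R := by linarith
  obtain ⟨S, hS⟩ : ∃ S : Set (Fin k → ℤ), S = {v : Fin k → ℤ |
    (∀ i, ext v i ≠ 0 ∧ |(ext v i : ℝ)| ≤ R) ∧
    ∃ p : ℕ, p.Prime ∧ z < p ∧ ¬ Loc p 0 (ext v)} := ⟨_, rfl⟩
  rw [← hS]
  obtain ⟨U, hU⟩ : ∃ U : ℕ → Set (Fin k → ℤ), U = fun p =>
      ⋃ t ∈ (Finset.univ : Finset (Fin (k + 1) × Fin k × Fin k)), Qs k R p t := ⟨_, rfl⟩
  have hcov : S ⊆ ⋃ p ∈ Finset.Ioc z ⌊R⌋₊, U p := by
    intro v hv
    rw [hS] at hv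
    obtain ⟨h1, p, hp, hzp, hL⟩ := hv
    have hsm : ∀ a, (p : ℤ) ∣ ext v a → p ∈ Finset.Ioc z ⌊R⌋₊ := by
      intro a ha
      refine Finset.mem_Ioc.2 ⟨hzp, Nat.le_floor ?_⟩
      have h2 : (p : ℤ) ≤ |ext v a| := Int.le_of_dvd (abs_pos.2 (h1 a).1) ((dvd_abs _ _).2 ha)
      have h3 : ((p : ℤ) : ℝ) ≤ |(ext v a : ℝ)| := by
        rw [← Int.cast_abs]
        exact_mod_cast h2
      exact_mod_cast h3.trans (h1 a).2
    have hin : ∀ a t, (p : ℤ) ∣ ext v a → v ∈ Qs k R p t →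
        v ∈ ⋃ p ∈ Finset.Ioc z ⌊R⌋₊, U p := by
      intro a t ha ht
      refine Set.mem_biUnion (hsm a ha) ?_
      rw [hU]
      exact Set.mem_biUnion (Finset.mem_univ t) ht
    unfold Loc at hL
    rw [if_pos rfl, not_and_or] at hL
    rcases hL with hL | hL
    · push Not at hL
      obtain ⟨a, b, hab, ha, hb⟩ := hL
      obtain ⟨c, hca, hcb⟩ := third hk a b
      obtain ⟨i, hi⟩ := Fin.exists_succAbove_eq hca.symm
      obtain ⟨j, hj⟩ := Fin.exists_succAbove_eq hcb.symm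
      have hij : i ≠ j := fun h => hab (by rw [← hi, ← hj, h])
      refine hin a (c, i, j) ha ⟨fun l => h1 _, ?_⟩
      rw [if_neg (show ¬ (c, i, j).2.1 = (c, i, j).2.2 from hij)]
      exact ⟨by rw [hi]; exact ha, by rw [hj]; exact hb⟩
    · push Not at hL
      obtain ⟨a, ha⟩ := hL
      obtain ⟨c, hca, -⟩ := third hk a a
      obtain ⟨i, hi⟩ := Fin.exists_succAbove_eq hca.symm
      refine hin a (c, i, i) ((dvd_pow_self _ two_ne_zero).trans ha) ⟨fun l => h1 _, ?_⟩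
      rw [if_pos rfl]
      push_cast
      rw [hi]
      exact ha
  have hp1 : ∀ p ∈ Finset.Ioc z ⌊R⌋₊, 1 ≤ p := fun p hp => by
    have := (Finset.mem_Ioc.1 hp).1
    omega
  have hUf : ∀ p, 1 ≤ p → (U p).Finite ∧ ((U p).ncard : ℝ) ≤
      ((k : ℝ) + 1) * k * k * ((2 * R) ^ k / (p : ℝ) ^ 2) := by
    intro p hp
    rw [hU]
    refine ⟨Set.Finite.biUnion (Finset.finite_toSet _) fun t _ => (qs_card k R hR0 p hp t).1, ?_⟩
    calc ((⋃ t ∈ (Finset.univ : Finset (Fin (k + 1) × Fin k × Fin k)), Qs k R p t).ncard : ℝ)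
        ≤ ((∑ t : Fin (k + 1) × Fin k × Fin k, (Qs k R p t).ncard : ℕ) : ℝ) := by
          exact_mod_cast Finset.set_ncard_biUnion_le _ _
      _ = ∑ t : Fin (k + 1) × Fin k × Fin k, ((Qs k R p t).ncard : ℝ) := by push_cast; rfl
      _ ≤ ∑ _t : Fin (k + 1) × Fin k × Fin k, (2 * R) ^ k / (p : ℝ) ^ 2 :=
          Finset.sum_le_sum fun t _ => (qs_card k R hR0 p hp t).2
      _ = ((k : ℝ) + 1) * k * k * ((2 * R) ^ k / (p : ℝ) ^ 2) := by
          rw [Finset.sum_const, nsmul_eq_mul, Finset.card_univ, Fintype.card_prod,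
            Fintype.card_prod, Fintype.card_fin, Fintype.card_fin]
          push_cast
          ring
  have hfin : (⋃ p ∈ Finset.Ioc z ⌊R⌋₊, U p).Finite :=
    Set.Finite.biUnion (Finset.finite_toSet _) fun p hp => (hUf p (hp1 p hp)).1
  refine ⟨hfin.subset hcov, ?_⟩
  have hz0 : (0 : ℝ) < z := by exact_mod_cast hz
  have hsum : ∑ p ∈ Finset.Ioc z ⌊R⌋₊, ((p : ℝ) ^ 2)⁻¹ ≤ (z : ℝ)⁻¹ := by
    rcases le_or_gt z ⌊R⌋₊ with h | h
    · have h2 := sum_Ioc_inv_sq_le_sub (α := ℝ) (show z ≠ 0 by omega) h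
      have h3 : (0 : ℝ) ≤ ((⌊R⌋₊ : ℕ) : ℝ)⁻¹ := by positivity
      linarith
    · rw [Finset.Ioc_eq_empty (by omega), Finset.sum_empty]
      positivity
  calc (S.ncard : ℝ) ≤ ((⋃ p ∈ Finset.Ioc z ⌊R⌋₊, U p).ncard : ℝ) := by
        exact_mod_cast Set.ncard_le_ncard hcov hfin
    _ ≤ ((∑ p ∈ Finset.Ioc z ⌊R⌋₊, (U p).ncard : ℕ) : ℝ) := by
        exact_mod_cast Finset.set_ncard_biUnion_le _ _
    _ = ∑ p ∈ Finset.Ioc z ⌊R⌋₊, ((U p).ncard : ℝ) := by push_cast; rfl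
    _ ≤ ∑ p ∈ Finset.Ioc z ⌊R⌋₊, ((k : ℝ) + 1) * k * k * ((2 * R) ^ k / (p : ℝ) ^ 2) :=
        Finset.sum_le_sum fun p hp => (hUf p (hp1 p hp)).2
    _ = ((k : ℝ) + 1) * k * k * (2 * R) ^ k * ∑ p ∈ Finset.Ioc z ⌊R⌋₊, ((p : ℝ) ^ 2)⁻¹ := by
        rw [Finset.mul_sum]
        exact Finset.sum_congr rfl fun p _ => by ring
    _ ≤ ((k : ℝ) + 1) * k * k * (2 * R) ^ k * (z : ℝ)⁻¹ :=
        mul_le_mul_of_nonneg_left hsum (by positivity)
    _ = ((k : ℝ) + 1) * k * k * 2 ^ k * R ^ k / z := by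
        rw [mul_pow]
        ring

end Pool.Agent.H14.EQ
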