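import Pool.Agent.H14.EQ.PZ
import Pool.Agent.H14.EQ.TZ

/-!
# Board MP_75a732_an, row PFV: the first visit
-/

set_option autoImplicit false

namespace Pool.Agent.H14.EQ

open scoped BigOperators ComplexConjugate ContDiff ComplexOrder
open MeasureTheory
open Pool.Agent.H92.EQ Pool.Agent.H80.EQ

theorem gss_cont' {N : ℕ} : Continuous (gss : (Fin N → Fin N → ℂ) → ℝ) := by
  unfold gss
  fun_prop

theorem gss_nonneg {N : ℕ} (X : Fin N → Fin N → ℂ) : 0 ≤ gss X :=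
  Finset.prod_nonneg fun _ _ => Finset.prod_nonneg fun _ _ =>
    mul_nonneg (inv_nonneg.2 Real.pi_pos.le) (Real.exp_pos _).le

theorem gss_int (N : ℕ) : Integrable (gss : (Fin N → Fin N → ℂ) → ℝ) ∧
    ∫ X : Fin N → Fin N → ℂ, gss X = 1 := by
  have h0 : (fun t : ℂ => Real.pi⁻¹ * Real.exp (-‖t‖ ^ 2)) = gs 1 := by
    funext t
    unfold gs
    rw [mul_one, div_one]
  have h1 := gs_int one_pos
  rw [← h0] at h1
  have h2 : Integrable (fun x : Fin N → ℂ => ∏ j, Real.pi⁻¹ * Real.exp (-‖x j‖ ^ 2)) :=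
    Integrable.fintype_prod (f := fun _ : Fin N => fun t : ℂ =>
      Real.pi⁻¹ * Real.exp (-‖t‖ ^ 2)) fun _ => h1.1
  have h3 : ∫ x : Fin N → ℂ, ∏ j, Real.pi⁻¹ * Real.exp (-‖x j‖ ^ 2) = 1 := by
    rw [integral_fintype_prod_volume_eq_prod (fun _ : Fin N => fun t : ℂ =>
      Real.pi⁻¹ * Real.exp (-‖t‖ ^ 2)), h1.2, Finset.prod_const_one]
  refine ⟨Integrable.fintype_prod (f := fun _ : Fin N => fun x : Fin N → ℂ =>
      ∏ j, Real.pi⁻¹ * Real.exp (-‖x j‖ ^ 2)) fun _ => h2, ?_⟩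
  unfold gss
  rw [integral_fintype_prod_volume_eq_prod (fun _ : Fin N => fun x : Fin N → ℂ =>
      ∏ j, Real.pi⁻¹ * Real.exp (-‖x j‖ ^ 2)), h3, Finset.prod_const_one]

theorem gss_half (N : ℕ) : ∃ R : ℝ, 1 ≤ R ∧
    1 / 2 ≤ ∫ X in Metric.closedBall (0 : Fin N → Fin N → ℂ) R, gss X := by
  have h1 := tendsto_setIntegral_of_monotone (μ := (volume : Measure (Fin N → Fin N → ℂ)))
    (s := fun n : ℕ => Metric.closedBall (0 : Fin N → Fin N → ℂ) n) (f := gss)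
    (fun n => measurableSet_closedBall)
    (fun m n hmn => Metric.closedBall_subset_closedBall (by exact_mod_cast hmn))
    ((gss_int N).1.integrableOn)
  rw [Metric.iUnion_closedBall_nat, setIntegral_univ, (gss_int N).2] at h1
  have h2 := (h1.eventually_const_le (by norm_num : (1 / 2 : ℝ) < 1)).and
    (Filter.eventually_ge_atTop 1)
  obtain ⟨n, hn, hn1⟩ := h2.exists
  exact ⟨n, by exact_mod_cast hn1, hn⟩

/-- almost every affine image of a Gaussian matrix is invertible -/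
theorem ae_det (hTH : T_TH) {N : ℕ} (hN : 0 < N) {θ : ℝ} (hθ : 0 < θ) :
    ∀ᵐ X : Fin N → Fin N → ℂ, (Matrix.of (dl N + θ • X)).det ≠ 0 := by
  have _ := haar2 N
  have h1 := (hTH N ⟨0, hN⟩ ⟨0, hN⟩).1
  rw [ae_iff] at h1 ⊢
  have h2 : {X : Fin N → Fin N → ℂ | ¬ (Matrix.of (dl N + θ • X)).det ≠ 0} =
      (fun X => θ • X) ⁻¹' ((fun Y => dl N + Y) ⁻¹'
        {Y : Fin N → Fin N → ℂ | ¬ (Matrix.of Y).det ≠ 0}) := rfl
  rw [h2, Measure.addHaar_preimage_smul _ hθ.ne', measure_preimage_add, h1, mul_zero]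

theorem pair_sc {N p q : ℕ} {S S' : Form (Fin N) p} (c : ℝ)
    (h : ∀ z I J, S z I J = (c : ℂ) * S' z I J) (φ : (Fin N → ℂ) → ℝ)
    (u : Fin q → (Fin N → ℂ) → ℝ) : pair φ S u = c * pair φ S' u := by
  unfold pair Iint
  rw [← integral_const_mul]
  congr 1
  funext z
  change φ z * Q S u z = _
  rw [ki_Q_S u z c (h z)]
  ring

theorem pair_lin (hP1 : T_P1) (hP3 : T_P3) {k : ℕ} {S : Form (Fin (k + 1)) k}
    (hS : ProjForm S) {φ g : (Fin (k + 1) → ℂ) → ℝ} (hφ : ContinuousOn φ {0}ᶜ) (b M : ℝ)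
    (hg : ∀ z, z ≠ 0 → g z = b + M * φ z) :
    pair g S (fun _ : Fin 0 => ell) =
      b * mass 0 S + M * pair φ S (fun _ : Fin 0 => ell) := by
  have h1 := hP1 (k + 1) k 0 S (fun _ : Fin 0 => ell) (fun _ => 0) rfl hS
    (fun j => j.elim0)
  have h3 := hP3 (k + 1) k 0 S (fun _ : Fin 0 => ell) rfl hS (fun j => j.elim0)
  rw [← h3.2.2.1]
  unfold pair Iint
  rw [← integral_const_mul, ← integral_const_mul, ← integral_add
    ((h1.2 (fun _ => 1) continuousOn_const).const_mul b) ((h1.2 φ hφ).const_mul M)]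
  refine integral_congr_ae ?_
  filter_upwards [ki_ne (Nat.succ_pos k)
    {z : Fin (k + 1) → ℂ | 0 ≤ ell z ∧ ell z < 1}] with z hz
  rw [hg z hz]
  ring

theorem pair_mono' (hP1 : T_P1) (hP3 : T_P3) {k : ℕ} {S : Form (Fin (k + 1)) k}
    (hS : ProjForm S) {φ ψ : (Fin (k + 1) → ℂ) → ℝ} (hφ : ContinuousOn φ {0}ᶜ)
    (hψ : ContinuousOn ψ {0}ᶜ) (hle : ∀ z, z ≠ 0 → φ z ≤ ψ z) :
    pair φ S (fun _ : Fin 0 => ell) ≤ pair ψ S (fun _ : Fin 0 => ell) := by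
  have h1 := hP1 (k + 1) k 0 S (fun _ : Fin 0 => ell) (fun _ => 0) rfl hS
    (fun j => j.elim0)
  have h3 := hP3 (k + 1) k 0 S (fun _ : Fin 0 => ell) rfl hS (fun j => j.elim0)
  unfold pair Iint
  refine integral_mono_ae (h1.2 φ hφ) (h1.2 ψ hψ) ?_
  filter_upwards [ki_ne (Nat.succ_pos k)
    {z : Fin (k + 1) → ℂ | 0 ≤ ell z ∧ ell z < 1}] with z hz
  exact mul_le_mul_of_nonneg_right (hle z hz) (h3.1 z hz)

/-- the comparison of the value at the identity with Gaussian means -/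
theorem gauss_dom (hTN : T_TN) (hTH : T_TH) (hD5 : T_D5) (hP1 : T_P1) (hP3 : T_P3) {k D : ℕ}
    {Φ : Fin (k + 1) → MvPolynomial (Fin (k + 1)) ℂ} (hD : 1 ≤ D) (hΦ : IsH D Φ)
    {σ : Form (Fin (k + 1)) k} (hσ : ProjForm σ) {ψ κ g : (Fin (k + 1) → ℂ) → ℝ}
    (hψ : ContinuousOn ψ {0}ᶜ) (hκ : Hom0 κ) (hg : Hom0 g)
    (h0 : ∀ z, z ≠ 0 → 0 ≤ κ z ∧ κ z ≤ g z) {b M : ℝ} (hM : 0 ≤ M)
    (hgw : ∀ z, z ≠ 0 → g z = b + M * ψ z) {B : ℝ} (hB : ∀ z, z ≠ 0 → |g z| ≤ B)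
    {θ R e E G : ℝ} (hθ : 0 < θ)
    (hR : 1 / 2 ≤ ∫ X in Metric.closedBall (0 : Fin (k + 1) → Fin (k + 1) → ℂ) R, gss X)
    (hI : Integrable (fun X : Fin (k + 1) → Fin (k + 1) → ℂ =>
      gss X * am ψ Φ σ (fun _ : Fin 0 => ell) (1 + (θ : ℂ) • Matrix.of X)))
    (hI' : Integrable (fun X : Fin (k + 1) → Fin (k + 1) → ℂ =>
      gss X * am ψ Φ σ (fun _ : Fin 0 => ell) (Matrix.of X)))
    (hT : |(∫ X : Fin (k + 1) → Fin (k + 1) → ℂ,
        gss X * am ψ Φ σ (fun _ : Fin 0 => ell) (1 + (θ : ℂ) • Matrix.of X)) -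
      ∫ X : Fin (k + 1) → Fin (k + 1) → ℂ,
        gss X * am ψ Φ σ (fun _ : Fin 0 => ell) (Matrix.of X)| ≤ E)
    (hG : ∫ X : Fin (k + 1) → Fin (k + 1) → ℂ,
      gss X * am g Φ σ (fun _ : Fin 0 => ell) (Matrix.of X) = G)
    (he : 0 ≤ e)
    (hL : ∀ A : Matrix (Fin (k + 1)) (Fin (k + 1)) ℂ,
      (∀ i j, ‖A i j - (1 : Matrix (Fin (k + 1)) (Fin (k + 1)) ℂ) i j‖ ≤ θ * R) →
      pair κ (pull Φ σ) (fun _ : Fin 0 => ell) ≤
        am κ Φ σ (fun _ : Fin 0 => ell) A + e) :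
    pair κ (pull Φ σ) (fun _ : Fin 0 => ell) ≤ 2 * (G + M * E + e) := by
  have hA : ∀ X : Fin (k + 1) → Fin (k + 1) → ℂ,
      Matrix.of (dl (k + 1) + θ • X) = 1 + (θ : ℂ) • Matrix.of X := by
    intro X
    ext i j
    simp [dl, Matrix.one_apply]
  have hN := fun A => (hTN (k + 1) k 0 D Φ σ g (fun _ : Fin 0 => ell) B rfl hD hΦ hσ hg
    (fun j => j.elim0) hB).2.2 A
  have hlin : ∀ A : Matrix (Fin (k + 1)) (Fin (k + 1)) ℂ, A.det ≠ 0 →
      am g Φ σ (fun _ : Fin 0 => ell) A =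
        b * ((D : ℝ) ^ k * mass 0 σ) + M * am ψ Φ σ (fun _ : Fin 0 => ell) A := by
    intro A hdet
    have h1 := pair_lin hP1 hP3 (hN A hdet).1 hψ b M hgw
    rw [(hN A hdet).2] at h1
    exact h1
  have hle : ∀ A : Matrix (Fin (k + 1)) (Fin (k + 1)) ℂ, A.det ≠ 0 →
      am κ Φ σ (fun _ : Fin 0 => ell) A ≤ am g Φ σ (fun _ : Fin 0 => ell) A :=
    fun A hdet => pair_mono' hP1 hP3 (hN A hdet).1 hκ.smooth.continuousOn
      hg.smooth.continuousOn fun z hz => (h0 z hz).2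
  have hpos : ∀ A : Matrix (Fin (k + 1)) (Fin (k + 1)) ℂ, A.det ≠ 0 →
      0 ≤ am g Φ σ (fun _ : Fin 0 => ell) A :=
    fun A hdet => (hP3 (k + 1) k 0 _ (fun _ : Fin 0 => ell) rfl (hN A hdet).1
      (fun j => j.elim0)).2.1 g fun z hz => (h0 z hz).1.trans (h0 z hz).2
  have hp0 : 0 ≤ pair κ (pull Φ σ) (fun _ : Fin 0 => ell) :=
    (hP3 (k + 1) k 0 _ (fun _ : Fin 0 => ell) rfl (hD5 (k + 1) k D Φ σ hD hΦ hσ)
      (fun j => j.elim0)).2.1 κ fun z hz => (h0 z hz).1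
  have hae : ∀ᵐ X : Fin (k + 1) → Fin (k + 1) → ℂ,
      (1 + (θ : ℂ) • Matrix.of X : Matrix (Fin (k + 1)) (Fin (k + 1)) ℂ).det ≠ 0 := by
    filter_upwards [ae_det hTH (Nat.succ_pos k) hθ] with X hX
    rwa [hA] at hX
  have hae' := (hTH (k + 1) 0 0).1
  have hg1 := gss_int (k + 1)
  have hGf : G = b * ((D : ℝ) ^ k * mass 0 σ) + M * ∫ X : Fin (k + 1) → Fin (k + 1) → ℂ,
      gss X * am ψ Φ σ (fun _ : Fin 0 => ell) (Matrix.of X) := by
    have h1 : G = ∫ X : Fin (k + 1) → Fin (k + 1) → ℂ,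
        (gss X * (b * ((D : ℝ) ^ k * mass 0 σ)) +
          M * (gss X * am ψ Φ σ (fun _ : Fin 0 => ell) (Matrix.of X))) := by
      rw [← hG]
      refine integral_congr_ae ?_
      filter_upwards [hae'] with X hX
      rw [hlin _ hX]
      ring
    rw [h1, integral_add (hg1.1.mul_const _) (hI'.const_mul M), integral_mul_const,
      integral_const_mul, hg1.2, one_mul]
  set f : (Fin (k + 1) → Fin (k + 1) → ℂ) → ℝ := fun X =>
    gss X * (b * ((D : ℝ) ^ k * mass 0 σ) + e) +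
      M * (gss X * am ψ Φ σ (fun _ : Fin 0 => ell) (1 + (θ : ℂ) • Matrix.of X)) with hf
  have hfi : Integrable f := (hg1.1.mul_const _).add (hI.const_mul M)
  have hfe : ∀ᵐ X : Fin (k + 1) → Fin (k + 1) → ℂ, f X =
      gss X * (am g Φ σ (fun _ : Fin 0 => ell) (1 + (θ : ℂ) • Matrix.of X) + e) := by
    filter_upwards [hae] with X hX
    rw [hlin _ hX, hf]
    ring
  have hfint : ∫ X, f X = b * ((D : ℝ) ^ k * mass 0 σ) + e +
      M * ∫ X : Fin (k + 1) → Fin (k + 1) → ℂ,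
        gss X * am ψ Φ σ (fun _ : Fin 0 => ell) (1 + (θ : ℂ) • Matrix.of X) := by
    rw [hf, integral_add (hg1.1.mul_const _) (hI.const_mul M), integral_mul_const,
      integral_const_mul, hg1.2, one_mul]
  have h1 : (1 / 2) * pair κ (pull Φ σ) (fun _ : Fin 0 => ell) ≤ ∫ X, f X := by
    calc (1 / 2) * pair κ (pull Φ σ) (fun _ : Fin 0 => ell) ≤
        (∫ X in Metric.closedBall (0 : Fin (k + 1) → Fin (k + 1) → ℂ) R, gss X) *
          pair κ (pull Φ σ) (fun _ : Fin 0 => ell) :=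
          mul_le_mul_of_nonneg_right hR hp0
      _ = ∫ X in Metric.closedBall (0 : Fin (k + 1) → Fin (k + 1) → ℂ) R,
          gss X * pair κ (pull Φ σ) (fun _ : Fin 0 => ell) := by
          rw [integral_mul_const]
      _ ≤ ∫ X in Metric.closedBall (0 : Fin (k + 1) → Fin (k + 1) → ℂ) R, f X := by
          refine integral_mono_ae (hg1.1.mul_const _).integrableOn hfi.integrableOn ?_
          filter_upwards [ae_restrict_of_ae hfe, ae_restrict_of_ae hae,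
            ae_restrict_mem measurableSet_closedBall] with X h1 h2 h3
          rw [h1]
          refine mul_le_mul_of_nonneg_left ?_ (gss_nonneg X)
          refine (hL (1 + (θ : ℂ) • Matrix.of X) ?_).trans (add_le_add (hle _ h2) le_rfl)
          intro i j
          have h4 : (1 + (θ : ℂ) • Matrix.of X : Matrix (Fin (k + 1)) (Fin (k + 1)) ℂ) i j -
              (1 : Matrix (Fin (k + 1)) (Fin (k + 1)) ℂ) i j = (θ : ℂ) * X i j := by
            simp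
          rw [h4, norm_mul, Complex.norm_real, Real.norm_eq_abs, abs_of_pos hθ]
          refine mul_le_mul_of_nonneg_left ?_ hθ.le
          rw [mem_closedBall_zero_iff] at h3
          exact (norm_le_pi_norm (X i) j).trans ((norm_le_pi_norm X i).trans h3)
      _ ≤ ∫ X, f X := by
          refine setIntegral_le_integral hfi ?_
          filter_upwards [hfe, hae] with X h1 h2
          rw [h1]
          exact mul_nonneg (gss_nonneg X) (add_nonneg (hpos _ h2) he)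
  have h2 := (abs_le.1 hT).2
  have h3 := mul_le_mul_of_nonneg_left h2 hM
  rw [hfint] at h1
  rw [hGf]
  linarith

theorem nrm_sq {N : ℕ} (z : Fin N → ℂ) : nrm z ^ 2 = nsq z :=
  Real.sq_sqrt (Finset.sum_nonneg fun _ _ => sq_nonneg _)

theorem nv_nonneg {N m : ℕ} (h : MvPolynomial (Fin N) ℂ) (z : Fin N → ℂ) : 0 ≤ nv h m z :=
  div_nonneg (norm_nonneg _) (pow_nonneg (Real.sqrt_nonneg _) _)

theorem g_eq {N M : ℕ} (hM : 1 ≤ M) (P : MvPolynomial (Fin N) ℂ) {r : ℝ} (hr : 0 < r) (b : ℝ)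
    {z : Fin N → ℂ} (hz : z ≠ 0) :
    b + M * (ell z - we P M r z) = b - (1 / 2) * Real.log (nv P M z ^ 2 + r ^ 2) := by
  have h1 : 0 < nsq z := by rw [← nrm_sq]; exact pow_pos (nrm_pos hz) 2
  have h2 : 0 < nv P M z ^ 2 + r ^ 2 := by positivity
  have h3 : ‖MvPolynomial.eval z P‖ ^ 2 + r ^ 2 * nsq z ^ M =
      nsq z ^ M * (nv P M z ^ 2 + r ^ 2) := by
    have h4 : (nrm z ^ M) ^ 2 = nsq z ^ M := by rw [← nrm_sq, ← pow_mul, ← pow_mul, mul_comm]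
    unfold nv
    rw [div_pow, h4]
    field_simp
  have h5 : (M : ℝ) ≠ 0 := by
    have : (0 : ℝ) < M := by exact_mod_cast hM
    exact this.ne'
  unfold we ell
  rw [h3, Real.log_mul (pow_pos h1 M).ne' h2.ne', Real.log_pow]
  field_simp
  ring

theorem vis_le {N M : ℕ} (hPVI : T_PVI) {P : MvPolynomial (Fin N) ℂ}
    (hP : P.IsHomogeneous M) {r : ℝ} (hr : 0 < r) (hr2 : r ≤ 1 / 2) {Bp : ℝ}
    (hB : ∀ z, z ≠ 0 → nv P M z ≤ Bp) {z : Fin N → ℂ} (hz : z ≠ 0) :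
    0 ≤ (1 / 2) * Real.log (Bp ^ 2 + 5) - (1 / 2) * Real.log (nv P M z ^ 2 + r ^ 2) ∧
    vis P M r z ≤ ((1 / 2) * Real.log (Bp ^ 2 + 5) -
      (1 / 2) * Real.log (nv P M z ^ 2 + r ^ 2)) / Real.log (1 / r) := by
  have hv := hPVI N M P r hP hr
  have h0 : 0 < nv P M z ^ 2 + r ^ 2 := by positivity
  have hlr : 0 < Real.log (1 / r) := Real.log_pos (by rw [lt_div_iff₀ hr]; linarith)
  have h1 : 0 ≤ (1 / 2) * Real.log (Bp ^ 2 + 5) -
      (1 / 2) * Real.log (nv P M z ^ 2 + r ^ 2) := by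
    have h2 : nv P M z ^ 2 + r ^ 2 ≤ Bp ^ 2 + 5 := by
      have h3 : nv P M z ^ 2 ≤ Bp ^ 2 := pow_le_pow_left₀ (nv_nonneg P z) (hB z hz) 2
      nlinarith
    have h4 := Real.log_le_log h0 h2
    linarith
  refine ⟨h1, ?_⟩
  by_cases h2 : vis P M r z = 0
  · rw [h2]
    exact div_nonneg h1 hlr.le
  · have h3 := hv.2.2.2 z h2
    refine (hv.2.1 z).2.trans ?_
    rw [le_div_iff₀ hlr, one_mul]
    have h4 : nv P M z ^ 2 + r ^ 2 ≤ 5 * r ^ 2 := by
      have h5 : nv P M z ^ 2 ≤ (2 * r) ^ 2 := pow_le_pow_left₀ (nv_nonneg P z) h3 2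
      nlinarith
    have h5 := Real.log_le_log h0 h4
    rw [Real.log_mul (by norm_num) (pow_pos hr 2).ne', Real.log_pow] at h5
    have h6 : Real.log 5 ≤ Real.log (Bp ^ 2 + 5) := Real.log_le_log (by norm_num) (by nlinarith)
    rw [one_div, Real.log_inv]
    push_cast at h5
    linarith

theorem noV_bd {N : ℕ} (F : Fin N → MvPolynomial (Fin N) ℂ) {v : (Fin N → ℂ) → ℝ}
    (hv : ∀ z, 0 ≤ v z ∧ v z ≤ 1) (L a b : ℕ) (x : Fin N → ℂ) :
    0 ≤ noV F v L a b x ∧ noV F v L a b x ≤ 1 := by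
  constructor
  · exact Finset.prod_nonneg fun i _ => by linarith [(hv (ev (iter F (L - i)) x)).2]
  · exact Finset.prod_le_one (fun i _ => by linarith [(hv (ev (iter F (L - i)) x)).2])
      fun i _ => by linarith [(hv (ev (iter F (L - i)) x)).1]

theorem noV_ne {N M : ℕ} (hPVI : T_PVI) {P : MvPolynomial (Fin N) ℂ}
    (hP : P.IsHomogeneous M) {r : ℝ} (hr : 0 < r) (F : Fin N → MvPolynomial (Fin N) ℂ) {j : ℕ}
    {x : Fin N → ℂ} (h : noV F (vis P M r) j 0 j x ≠ 0) {i : ℕ} (h1 : 1 ≤ i) (hi : i ≤ j) :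
    r ≤ nv P M (ev (iter F i) x) := by
  have hv := hPVI N M P r hP hr
  by_contra hc
  push Not at hc
  refine h (Finset.prod_eq_zero (i := j - i) (Finset.mem_Ico.2 ⟨Nat.zero_le _, by omega⟩) ?_)
  rw [show j - (j - i) = i by omega, hv.2.2.1 _ hc.le, sub_self]

theorem consts {E0 c1 cL R0 : ℝ} (hE : 1 ≤ E0) (hc : 0 < c1) (hc1 : c1 ≤ 1) (hL : 0 < cL)
    (hR : 1 ≤ R0) (m N : ℕ) (hN : 1 ≤ N) : ∃ C2 : ℝ, 0 < C2 ∧ ∀ (r : ℝ) (j : ℕ), 0 < r →
    r ≤ 1 / 2 → 1 ≤ j → ∃ θ : ℝ, 0 < θ ∧ θ ≤ 1 ∧ θ * R0 ≤ 1 / (2 * N) ∧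
    cL * (E0 ^ (j + 1) / r ^ 3 / (c1 * r) ^ j) ^ m * (θ * R0) ≤ 1 ∧
    1 + Real.log (1 / θ) ≤ C2 * (j * Real.log (1 / r)) := by
  have hN' : (1 : ℝ) ≤ N := by exact_mod_cast hN
  set T : ℝ := 2 * N * (1 + cL) with hT
  have hT2 : 2 * (N : ℝ) ≤ T := by nlinarith
  have hTc : cL ≤ T := by nlinarith
  have hT0 : 0 < T := by linarith
  have hT1 : 1 ≤ T := by linarith
  have hRT : 0 ≤ Real.log (R0 * T) := Real.log_nonneg (by nlinarith)
  have hEc : 0 ≤ Real.log (E0 ^ 2 / c1) := Real.log_nonneg (by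
    rw [le_div_iff₀ hc]
    nlinarith)
  have hE0 : 0 < E0 := by linarith
  refine ⟨2 + 2 * Real.log (R0 * T) + 2 * m * Real.log (E0 ^ 2 / c1) + 4 * m, by positivity,
    fun r j hr hr2 hj => ?_⟩
  have hj1 : (1 : ℝ) ≤ j := by exact_mod_cast hj
  have hr1 : r ≤ 1 := by linarith
  have hlr : 1 / 2 ≤ Real.log (1 / r) := by
    have h1 : Real.log 2 ≤ Real.log (1 / r) :=
      Real.log_le_log (by norm_num) (by rw [le_div_iff₀ hr]; linarith)
    have h2 := Real.log_two_gt_d9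
    linarith
  set W : ℝ := E0 ^ 2 / (c1 * r ^ 4) with hW
  have hr4 : r ^ 4 ≤ 1 := pow_le_one₀ hr.le hr1
  have hr40 : 0 < r ^ 4 := by positivity
  have hW1 : 1 ≤ W := by
    rw [hW, le_div_iff₀ (by positivity)]
    nlinarith
  have hW0 : 0 < W := by linarith
  have hWl : Real.log W = Real.log (E0 ^ 2 / c1) + 4 * Real.log (1 / r) := by
    rw [hW, ← div_div, Real.log_div (by positivity) (by positivity), Real.log_pow, one_div,
      Real.log_inv]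
    push_cast
    ring
  have hWj : E0 ^ (j + 1) / r ^ 3 / (c1 * r) ^ j ≤ W ^ j := by
    rw [hW, div_pow, div_div, mul_pow, mul_pow, ← pow_mul, ← pow_mul]
    have h1 : E0 ^ (j + 1) ≤ E0 ^ (2 * j) := pow_le_pow_right₀ hE (by omega)
    have h2 : r ^ (4 * j) ≤ r ^ (3 + j) := pow_le_pow_of_le_one hr.le hr1 (by omega)
    have h3 : r ^ 3 * (c1 ^ j * r ^ j) = c1 ^ j * r ^ (3 + j) := by rw [pow_add]; ring
    rw [h3]
    exact div_le_div₀ (by positivity) h1 (by positivity)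
      (mul_le_mul_of_nonneg_left h2 (by positivity))
  refine ⟨(R0 * T * W ^ (j * m))⁻¹, by positivity, ?_, ?_, ?_, ?_⟩
  · refine inv_le_one_of_one_le₀ ?_
    have h1 : 1 ≤ W ^ (j * m) := one_le_pow₀ hW1
    have h2 : 1 ≤ R0 * T := by nlinarith
    nlinarith
  · have h1 : (R0 * T * W ^ (j * m))⁻¹ * R0 = 1 / (T * W ^ (j * m)) := by
      field_simp
    rw [h1]
    refine one_div_le_one_div_of_le (by linarith) ?_
    have h1 : 1 ≤ W ^ (j * m) := one_le_pow₀ hW1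
    nlinarith
  · have h1 : (R0 * T * W ^ (j * m))⁻¹ * R0 = 1 / (T * W ^ (j * m)) := by
      field_simp
    rw [h1, mul_one_div, div_le_one (by positivity)]
    have h2 : (E0 ^ (j + 1) / r ^ 3 / (c1 * r) ^ j) ^ m ≤ W ^ (j * m) := by
      rw [pow_mul]
      exact pow_le_pow_left₀ (by positivity) hWj m
    exact mul_le_mul hTc h2 (by positivity) hT0.le
  · rw [one_div, inv_inv, Real.log_mul (by positivity) (by positivity), Real.log_pow, hWl]
    push_cast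
    have h1 : 0 ≤ (j : ℝ) * Real.log (1 / r) - 1 / 2 := by nlinarith
    have h2 : 0 ≤ Real.log (R0 * T) * ((j : ℝ) * Real.log (1 / r) - 1 / 2) :=
      mul_nonneg hRT h1
    have h3 : 0 ≤ (j : ℝ) * m * Real.log (E0 ^ 2 / c1) * (Real.log (1 / r) - 1 / 2) :=
      mul_nonneg (by positivity) (by linarith)
    nlinarith

end Pool.Agent.H14.EQ
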