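import Pool.Agent.H92.EQ.TT

/-!
# Board MP_75a732_an, row TI: the polynomial map of a one parameter family
-/

set_option autoImplicit false

namespace Pool.Agent.H14.EQ

open scoped BigOperators ComplexConjugate ContDiff ComplexOrder
open MeasureTheory
open Pool.Agent.H92.EQ

variable {N : ℕ}

theorem rep_apply (X : Fin N → Fin N → ℂ) (i j i' k : Fin N) (t : ℂ) :
    rep X i j t i' k = if i' = i ∧ k = j then t else X i' k := by
  unfold rep
  by_cases h : i' = i
  · subst h
    rw [Function.update_self]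
    by_cases hk : k = j
    · subst hk
      simp
    · simp [hk]
  · rw [Function.update_of_ne h]
    simp [h]

/-- the family `A_t ∘ Φ` as a polynomial map -/
noncomputable def GP (Φ : Fin N → MvPolynomial (Fin N) ℂ) (X : Fin N → Fin N → ℂ)
    (i j : Fin N) : Fin N → MvPolynomial (Fin (N + 1)) ℂ :=
  fun i' => ∑ k, (if i' = i ∧ k = j then MvPolynomial.X 0 else MvPolynomial.C (X i' k)) *
    MvPolynomial.rename Fin.succ (Φ k)

theorem ev_GP (Φ : Fin N → MvPolynomial (Fin N) ℂ) (X : Fin N → Fin N → ℂ) (i j i' : Fin N)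
    (z : Fin (N + 1) → ℂ) :
    ev (GP Φ X i j) z i' = ∑ k, rep X i j (z 0) i' k * ev Φ (tl z) k := by
  unfold ev GP
  rw [map_sum]
  refine Finset.sum_congr rfl fun k _ => ?_
  rw [map_mul, rep_apply, MvPolynomial.eval_rename]
  congr 1
  split_ifs <;> simp

theorem ev_GP' (Φ : Fin N → MvPolynomial (Fin N) ℂ) (X : Fin N → Fin N → ℂ) (i j : Fin N)
    (z : Fin (N + 1) → ℂ) :
    ev (GP Φ X i j) z = (Matrix.of (rep X i j (z 0))).mulVec (ev Φ (tl z)) := by
  funext i'
  rw [ev_GP]
  rfl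

theorem jac_GP (Φ : Fin N → MvPolynomial (Fin N) ℂ) (X : Fin N → Fin N → ℂ) (i j i' b : Fin N)
    (z : Fin (N + 1) → ℂ) :
    jac (GP Φ X i j) z i' b.succ = ∑ k, rep X i j (z 0) i' k * jac Φ (tl z) k b := by
  unfold jac GP
  rw [map_sum, map_sum]
  refine Finset.sum_congr rfl fun k _ => ?_
  rw [MvPolynomial.pderiv_mul, MvPolynomial.pderiv_rename (Fin.succ_injective N), map_add,
    map_mul, map_mul, MvPolynomial.eval_rename, MvPolynomial.eval_rename, rep_apply]
  have h1 : MvPolynomial.pderiv b.succ (if i' = i ∧ k = j then MvPolynomial.X 0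
      else MvPolynomial.C (X i' k) : MvPolynomial (Fin (N + 1)) ℂ) = 0 := by
    split_ifs
    · exact MvPolynomial.pderiv_X_of_ne (Fin.succ_ne_zero b).symm
    · exact MvPolynomial.pderiv_C
  rw [h1, map_zero, zero_mul, zero_add]
  congr 1
  split_ifs <;> simp

theorem cmp_lin (Φ : Fin N → MvPolynomial (Fin N) ℂ) (A : Matrix (Fin N) (Fin N) ℂ)
    (i' : Fin N) : cmp (lin A) Φ i' = ∑ k, MvPolynomial.C (A i' k) * Φ k := by
  unfold Pool.Agent.H92.EQ.cmp lin
  rw [map_sum]
  refine Finset.sum_congr rfl fun k _ => ?_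
  rw [map_mul, MvPolynomial.bind₁_C_right, MvPolynomial.bind₁_X_right]

theorem res_pull {p : ℕ} (Φ : Fin N → MvPolynomial (Fin N) ℂ) (X : Fin N → Fin N → ℂ)
    (i j : Fin N) (S : Form (Fin N) p) (t : ℂ) :
    res (pull (GP Φ X i j) S) t = pull (cmp (lin (Matrix.of (rep X i j t))) Φ) S := by
  have hct : ∀ x : Fin N → ℂ, tl (ct t x) = x := fun x => rfl
  have h0 : ∀ x : Fin N → ℂ, ct t x 0 = t := fun x => rfl
  have h1 : ∀ x : Fin N → ℂ, ev (GP Φ X i j) (ct t x) =
      ev (cmp (lin (Matrix.of (rep X i j t))) Φ) x := by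
    intro x
    funext i'
    rw [ev_GP, hct, h0]
    unfold ev
    rw [cmp_lin, map_sum]
    refine Finset.sum_congr rfl fun k _ => ?_
    rw [map_mul, MvPolynomial.eval_C]
    rfl
  have h2 : ∀ (x : Fin N → ℂ) (i' b : Fin N), jac (GP Φ X i j) (ct t x) i' b.succ =
      jac (cmp (lin (Matrix.of (rep X i j t))) Φ) x i' b := by
    intro x i' b
    rw [jac_GP, hct, h0]
    unfold jac
    rw [cmp_lin, map_sum, map_sum]
    refine Finset.sum_congr rfl fun k _ => ?_
    rw [MvPolynomial.pderiv_C_mul, map_mul, MvPolynomial.eval_C]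
    rfl
  funext x I J
  unfold res pull
  simp only [h1, h2]

end Pool.Agent.H14.EQ
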